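import Mathlib
import Pool.Agent.Y877.Comb

/-! Many quadruples such that all six of their derived means lie in a dense subset of an interval. -/

set_option autoImplicit false

namespace Pool.Agent.T6.H3.TE

open Finset Pool.Agent.H602R3.DHJ Pool.Agent.Y877

/-- the six forms in the parameters -/
def L6 (w : Fin 4 → ℤ) : Fin 6 → ℤ :=
  ![3 * w 0 + 3 * w 1, 12 * w 0 - 6 * w 2, 4 * w 0 + 2 * w 3, 4 * w 1 + 2 * w 2,
    12 * w 1 - 6 * w 3, 3 * w 2 + 3 * w 3]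

/-- the six relations -/
def Rel (B : Finset ℕ) (x : Fin 4 → ℤ) : Prop :=
  (∃ k ∈ B, x 0 + x 1 = 2 * (k : ℤ)) ∧ (∃ k ∈ B, 2 * x 0 - x 2 = (k : ℤ)) ∧
    (∃ k ∈ B, 2 * x 0 + x 3 = 3 * (k : ℤ)) ∧ (∃ k ∈ B, 2 * x 1 + x 2 = 3 * (k : ℤ)) ∧
    (∃ k ∈ B, 2 * x 1 - x 3 = (k : ℤ)) ∧ (∃ k ∈ B, x 2 + x 3 = 2 * (k : ℤ))

theorem L6_smul (t : ℤ) (w : Fin 4 → ℤ) (a : Fin 6) : L6 (fun i => t * w i) a = t * L6 w a := by
  fin_cases a <;> simp [L6] <;> ring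

theorem L6_bd (r : ℕ) (w : Fin 4 → ℤ) (hw : ∀ i, 0 ≤ w i ∧ w i ≤ r) (a : Fin 6) :
    |L6 w a| ≤ 18 * r := by
  have h0 := hw 0
  have h1 := hw 1
  have h2 := hw 2
  have h3 := hw 3
  rw [abs_le]
  fin_cases a <;> simp [L6] <;> constructor <;> linarith

theorem rel_of (B : Finset ℕ) (m : ℤ) (w : Fin 4 → ℤ)
    (h : ∀ a, ∃ k ∈ B, m + L6 w a = (k : ℤ)) : Rel B (fun i => m + 6 * w i) := by
  obtain ⟨k0, hk0, e0⟩ := h 0
  obtain ⟨k1, hk1, e1⟩ := h 1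
  obtain ⟨k2, hk2, e2⟩ := h 2
  obtain ⟨k3, hk3, e3⟩ := h 3
  obtain ⟨k4, hk4, e4⟩ := h 4
  obtain ⟨k5, hk5, e5⟩ := h 5
  simp only [L6, Fin.isValue, Matrix.cons_val] at e0 e1 e2 e3 e4 e5
  refine ⟨⟨k0, hk0, ?_⟩, ⟨k1, hk1, ?_⟩, ⟨k2, hk2, ?_⟩, ⟨k3, hk3, ?_⟩, ⟨k4, hk4, ?_⟩,
    ⟨k5, hk5, ?_⟩⟩ <;> simp only <;> linarith

open Classical in
theorem comb (ε : ℝ) (hε : 0 < ε) : ∃ (κ : ℝ) (h₀ : ℕ), 0 < κ ∧ ∀ h u₀ : ℕ, h₀ ≤ h →
    ∀ B : Finset ℕ, B ⊆ Ioc u₀ (u₀ + h) → ε * h ≤ B.card →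
    ∃ T : Finset (Fin 4 → ℤ),
      (∀ x ∈ T, Rel B x ∧ ∀ i, x i ∈ Icc ((u₀ : ℤ) - h) (u₀ + 3 * h)) ∧
      κ * (4 * h + 1) ^ 4 ≤ (T.card : ℝ) := by
  obtain ⟨N, hN⟩ := dhjT (Fin 6) (ε / 8) (by positivity)
  refine ⟨ε / (8 * 7 ^ N * (180 * (N + 1)) ^ 4), 36 * (N + 1), by positivity, ?_⟩
  intro h u₀ hh B hB hBc
  have hh1 : 1 ≤ h := by omega
  obtain ⟨r, hr⟩ : ∃ r : ℕ, r = h / (18 * (N + 1)) := ⟨_, rfl⟩
  have hr1 : r * (18 * (N + 1)) ≤ h := by rw [hr]; exact Nat.div_mul_le_self _ _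
  obtain ⟨Wb, hWb⟩ : ∃ Wb : Finset (Fin 4 → ℤ), Wb = Fintype.piFinset (fun _ => Ico (0 : ℤ) r) :=
    ⟨_, rfl⟩
  have hWc : Wb.card = r ^ 4 := by
    rw [hWb, Fintype.card_piFinset, prod_const, Int.card_Ico]
    simp
  have hw0 : ∀ w ∈ Wb, ∀ i, 0 ≤ w i ∧ w i ≤ r := by
    intro w hw i
    rw [hWb, Fintype.mem_piFinset] at hw
    have := mem_Ico.1 (hw i)
    exact ⟨this.1, this.2.le⟩
  obtain ⟨vv, hvv⟩ : ∃ vv : (Fin 4 → ℤ) → (Fin N → Fin 6) → ℤ, vv = fun w u => ∑ i, L6 w (u i) :=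
    ⟨_, rfl⟩
  have hNr : (N : ℤ) * (18 * r) ≤ h := by
    have h1 : N * (18 * r) ≤ r * (18 * (N + 1)) := by nlinarith
    exact_mod_cast h1.trans hr1
  have hvb : ∀ w ∈ Wb, ∀ u, |vv w u| ≤ h := by
    intro w hw u
    rw [hvv]
    calc |∑ i, L6 w (u i)| ≤ ∑ i, |L6 w (u i)| := abs_sum_le_sum_abs _ _
      _ ≤ ∑ _i : Fin N, (18 * (r : ℤ)) := sum_le_sum fun i _ => L6_bd r w (hw0 w hw) _
      _ = N * (18 * r) := by rw [sum_const, card_univ, Fintype.card_fin, nsmul_eq_mul]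
      _ ≤ h := hNr
  obtain ⟨Z, hZd⟩ : ∃ Z : (Fin 4 → ℤ) → Finset ℤ, Z = fun w =>
      (Icc ((u₀ : ℤ) - h) (u₀ + 2 * h)).filter (fun z : ℤ =>
      ∃ V : Fin N → Fin 6 ⊕ Unit, Pr V ∧ ∀ a, ∃ k ∈ B, z + vv w (ap V (fun _ => a)) = (k : ℤ)) :=
    ⟨_, rfl⟩
  have hZ : ∀ w ∈ Wb, ε / 2 * h ≤ ((Z w).card : ℝ) := by
    intro w hw
    have h1 := count_z ε hN h hh1 u₀ (vv w) (hvb w hw) B hB hBc hε
    rw [hZd]
    refine h1.trans (le_of_eq ?_)
    congr!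
  have hex : ∀ (w : Fin 4 → ℤ) (z : ℤ), ∃ V : Fin N → Fin 6 ⊕ Unit, z ∈ Z w → Pr V ∧
      ∀ a, ∃ k ∈ B, z + vv w (ap V (fun _ => a)) = (k : ℤ) := by
    intro w z
    by_cases hz : z ∈ Z w
    · have hz' := hz
      rw [hZd] at hz'
      obtain ⟨V, hV⟩ := (mem_filter.1 hz').2
      exact ⟨V, fun _ => hV⟩
    · exact ⟨fun _ => Sum.inr (), fun h => absurd h hz⟩
  choose V hV using hex
  have hs : ∀ (w : Fin 4 → ℤ) (V' : Fin N → Fin 6 ⊕ Unit), ∃ s : ℤ,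
      ∀ a, ∑ i, L6 w (ap V' (fun _ => a) i) = s + act V' * L6 w a :=
    fun w V' => line_sum V' (L6 w)
  choose s hs using hs
  obtain ⟨Tt, hTt⟩ : ∃ Tt : Finset (Fin 4 → ℤ), Tt =
      (Fintype.piFinset (fun _ : Fin 4 => Icc ((u₀ : ℤ) - h) (u₀ + 3 * h))).filter
        (fun x => Rel B x) := ⟨_, rfl⟩
  obtain ⟨F, hF⟩ : ∃ F : (Σ _ : Fin 4 → ℤ, ℤ) → (Fin N → Fin 6 ⊕ Unit) × ℤ × (Fin 4 → ℤ),
      F = fun p => (V p.1 p.2, p.2 + s p.1 (V p.1 p.2),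
        fun i => p.2 + s p.1 (V p.1 p.2) + 6 * (act (V p.1 p.2) * p.1 i)) := ⟨_, rfl⟩
  have hcard : (Wb.sigma Z).card ≤ ((univ : Finset (Fin N → Fin 6 ⊕ Unit)) ×ˢ
      (Icc ((u₀ : ℤ) - h) (u₀ + 2 * h) ×ˢ Tt)).card := by
    refine card_le_card_of_injOn F ?_ ?_
    · rintro ⟨w, z⟩ hp
      rw [mem_coe, mem_sigma] at hp
      obtain ⟨hw, hz⟩ := hp
      simp only at hw hz
      obtain ⟨hPr, hk⟩ := hV w z hz
      have hact0 := act_pos _ hPr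
      have hactN := act_le (V w z)
      have hwb := hw0 w hw
      have hkk : ∀ a, ∃ k ∈ B, z + s w (V w z) + L6 (fun i => act (V w z) * w i) a = (k : ℤ) := by
        intro a
        obtain ⟨k, hk1, hk2⟩ := hk a
        refine ⟨k, hk1, ?_⟩
        rw [hvv] at hk2
        rw [L6_smul, add_assoc, ← hs w (V w z) a]
        exact hk2
      have hab : ∀ i, 0 ≤ (act (V w z) : ℤ) * w i ∧ (act (V w z) : ℤ) * w i ≤ N * r := by
        intro i
        have h1 : (act (V w z) : ℤ) ≤ N := by exact_mod_cast hactN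
        have h2 : (0 : ℤ) ≤ act (V w z) := by positivity
        exact ⟨mul_nonneg h2 (hwb i).1, mul_le_mul h1 (hwb i).2 (hwb i).1 (by positivity)⟩
      have hm0 : z + s w (V w z) ∈ Icc ((u₀ : ℤ) - h) (u₀ + 2 * h) := by
        obtain ⟨k, hk1, hk2⟩ := hkk 0
        have h3 := mem_Ioc.1 (hB hk1)
        have h4 := L6_bd (N * r) (fun i => act (V w z) * w i) (fun i => by
          push_cast
          exact hab i) 0
        have h5 : |L6 (fun i => act (V w z) * w i) 0| ≤ h := by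
          refine h4.trans ?_
          push_cast
          linarith
        have h6 := abs_le.1 h5
        have h7 : (u₀ : ℤ) < k := by exact_mod_cast h3.1
        have h8 : (k : ℤ) ≤ u₀ + h := by exact_mod_cast h3.2
        rw [mem_Icc]
        constructor <;> linarith
      rw [mem_coe, mem_product, mem_product]
      refine ⟨mem_univ _, ?_, ?_⟩
      · rw [hF]
        exact hm0
      · rw [hF, hTt]
        simp only
        rw [mem_filter, Fintype.mem_piFinset]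
        refine ⟨fun i => ?_, ?_⟩
        · have h1 := mem_Icc.1 hm0
          have h2 := hab i
          rw [mem_Icc]
          constructor <;> linarith
        · exact rel_of B _ _ hkk
    · rintro ⟨w, z⟩ hp ⟨w', z'⟩ hp' he
      rw [mem_coe, mem_sigma] at hp hp'
      obtain ⟨hw, hz⟩ := hp
      obtain ⟨hw', hz'⟩ := hp'
      simp only at hw hz hw' hz'
      rw [hF] at he
      simp only [Prod.mk.injEq] at he
      obtain ⟨e1, e2, e3⟩ := he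
      have hact0 := act_pos _ (hV w z hz).1
      have e4 : w = w' := by
        funext i
        have e5 := congrFun e3 i
        rw [← e2, ← e1] at e5
        have e6 : (act (V w z) : ℤ) * w i = act (V w z) * w' i := by linarith
        exact mul_left_cancel₀ (by exact_mod_cast hact0.ne') e6
      subst e4
      rw [← e1] at e2
      have e5 : z = z' := by linarith
      subst e5
      rfl
  refine ⟨Tt, fun x hx => ?_, ?_⟩
  · rw [hTt, mem_filter, Fintype.mem_piFinset] at hx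
    exact ⟨hx.2, hx.1⟩
  · have hc1 : (r : ℝ) ^ 4 * (ε / 2 * h) ≤ ((Wb.sigma Z).card : ℝ) := by
      rw [card_sigma]
      push_cast
      calc (r : ℝ) ^ 4 * (ε / 2 * h) = ∑ _w ∈ Wb, (ε / 2 * h) := by
            rw [sum_const, hWc, nsmul_eq_mul]; push_cast; ring
        _ ≤ _ := sum_le_sum fun w hw => hZ w hw
    have hc2 : (((univ : Finset (Fin N → Fin 6 ⊕ Unit)) ×ˢ
      (Icc ((u₀ : ℤ) - h) (u₀ + 2 * h) ×ˢ Tt)).card : ℝ) = 7 ^ N * ((3 * h + 1) * Tt.card) := by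
      rw [card_product, card_product, card_univ, Fintype.card_fun, Fintype.card_sum,
        Fintype.card_fin, Fintype.card_fin, Fintype.card_unit, Int.card_Icc]
      have h1 : ((u₀ : ℤ) + 2 * h + 1 - (u₀ - h)).toNat = 3 * h + 1 := by omega
      rw [h1]
      push_cast
      norm_num
    have hc3 : (r : ℝ) ^ 4 * (ε / 2 * h) ≤ 7 ^ N * ((3 * h + 1) * Tt.card) := by
      rw [← hc2]
      exact hc1.trans (by exact_mod_cast hcard)
    have hhr : (1 : ℝ) ≤ h := by exact_mod_cast hh1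
    have hr3 : (h : ℝ) ≤ r * (36 * (N + 1)) := by
      have h1 : h ≤ r * (36 * (N + 1)) := by
        have h2 : 1 ≤ r := by
          rw [hr, Nat.one_le_div_iff (by omega)]
          omega
        have h3 := Nat.div_add_mod h (18 * (N + 1))
        have h4 := Nat.mod_lt h (show 0 < 18 * (N + 1) by omega)
        rw [← hr] at h3
        have h5 : 18 * (N + 1) * 1 ≤ 18 * (N + 1) * r := Nat.mul_le_mul_left _ h2
        have h6 : r * (36 * (N + 1)) = 2 * (18 * (N + 1) * r) := by ring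
        omega
      exact_mod_cast h1
    have hc4 : (h : ℝ) ^ 4 ≤ (r * (36 * (N + 1))) ^ 4 := pow_le_pow_left₀ (by positivity) hr3 4
    have hT0 : (0 : ℝ) ≤ Tt.card := Nat.cast_nonneg _
    have hc5 : (r : ℝ) ^ 4 * (ε / 8) ≤ 7 ^ N * Tt.card := by
      have h1 : (r : ℝ) ^ 4 * (ε / 2 * h) ≤ 7 ^ N * ((4 * h) * Tt.card) := by
        refine hc3.trans ?_
        gcongr
        linarith
      have h2 : (r : ℝ) ^ 4 * (ε / 8) * h ≤ 7 ^ N * Tt.card * h := by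
        nlinarith
      exact le_of_mul_le_mul_right h2 (by linarith)
    have hc6 : (4 * (h : ℝ) + 1) ^ 4 ≤ (5 * h) ^ 4 := pow_le_pow_left₀ (by positivity) (by linarith) 4
    calc ε / (8 * 7 ^ N * (180 * (N + 1)) ^ 4) * (4 * (h : ℝ) + 1) ^ 4 ≤
        ε / (8 * 7 ^ N * (180 * (N + 1)) ^ 4) * (5 * h) ^ 4 :=
          mul_le_mul_of_nonneg_left hc6 (by positivity)
      _ = ε / (8 * 7 ^ N * (180 * (N + 1)) ^ 4) * 625 * (h : ℝ) ^ 4 := by ring
      _ ≤ ε / (8 * 7 ^ N * (180 * (N + 1)) ^ 4) * 625 * (r * (36 * (N + 1))) ^ 4 :=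
          mul_le_mul_of_nonneg_left hc4 (by positivity)
      _ = (r : ℝ) ^ 4 * (ε / 8) / 7 ^ N := by
          field_simp
          ring
      _ ≤ 7 ^ N * Tt.card / 7 ^ N := by gcongr
      _ = Tt.card := by field_simp

end Pool.Agent.T6.H3.TE
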