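import Mathlib
import Pool.Agent.T6.H3.TE.Comb

/-! Counting lemmas for the average over the translates. -/

set_option autoImplicit false

namespace Pool.Agent.T6.H3.TE

open Finset

/-- the centres of the forms -/
def cen (r Q κ : ℤ) (g : Fin 4) (x : ℤ) : ℤ := r + (![0, 0, κ, -κ] : Fin 4 → ℤ) g + Q * x

/-- the slopes of the forms -/
def slo : Fin 4 → ℤ := ![1, -1, 2, -2]

theorem slo_ne (g : Fin 4) : slo g ≠ 0 := by fin_cases g <;> decide

theorem slo_le (g : Fin 4) : |slo g| ≤ 2 := by fin_cases g <;> decide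

theorem slo_inj {g g' : Fin 4} (h : slo g = slo g') : g = g' := by
  revert g g'
  decide

theorem cen_inj {r Q κ : ℤ} (hQ : Q ≠ 0) {g : Fin 4} {x x' : ℤ}
    (h : cen r Q κ g x = cen r Q κ g x') : x = x' := by
  unfold cen at h
  have h1 : Q * x = Q * x' := by linarith
  exact mul_left_cancel₀ hQ h1

/-- the forms are primitive -/
theorem cop (r Q κ : ℤ) (hQ : 2 ∣ Q) (hr : Odd (r + κ)) (g : Fin 4) (x : ℤ) :
    IsCoprime (slo g) (cen r Q κ g x) := by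
  obtain ⟨Q', rfl⟩ := hQ
  obtain ⟨m, hm⟩ := hr
  have h1 : ∀ a b : ℤ, IsCoprime (2 : ℤ) (2 * a + 1) := fun a _ => ⟨-a, 1, by ring⟩
  fin_cases g
  · exact isCoprime_one_left
  · exact isCoprime_one_left.neg_left
  · show IsCoprime (2 : ℤ) (r + κ + 2 * Q' * x)
    have : r + κ + 2 * Q' * x = 2 * (m + Q' * x) + 1 := by rw [hm]; ring
    rw [this]
    exact h1 _ 0
  · show IsCoprime (-2 : ℤ) (r + -κ + 2 * Q' * x)
    have : r + -κ + 2 * Q' * x = 2 * (m - κ + Q' * x) + 1 := by linarith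
    rw [this]
    exact (h1 _ 0).neg_left

/-- good residue classes modulo the small primes -/
theorem loc (r Q κ : ℤ) (hκ : κ = 0 ∨ κ = 3) (hr : Odd (r + κ)) (p : ℕ) (hp : p.Prime)
    (hpQ : (p : ℤ) ∣ Q) : ∃ t : ℤ, ∀ (g : Fin 4) (x : ℤ), ¬ (p : ℤ) ∣ slo g * t + cen r Q κ g x := by
  -- the multiples of `Q` do not matter
  suffices H : ∃ t : ℤ, ∀ (g : Fin 4), ¬ (p : ℤ) ∣ slo g * t + (r + (![0, 0, κ, -κ] : Fin 4 → ℤ) g) by
    obtain ⟨t, ht⟩ := H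
    refine ⟨t, fun g x hd => ht g ?_⟩
    have h1 : slo g * t + (r + (![0, 0, κ, -κ] : Fin 4 → ℤ) g) =
        (slo g * t + cen r Q κ g x) - Q * x := by unfold cen; ring
    rw [h1]
    exact dvd_sub hd (hpQ.mul_right _)
  rcases Nat.lt_or_ge p 5 with h5 | h5
  · have h2 := hp.two_le
    interval_cases p
    · obtain ⟨m, hm⟩ := hr
      refine ⟨r + 1, fun g => ?_⟩
      fin_cases g <;> simp [slo] <;> omega
    · by_cases h3 : (3 : ℤ) ∣ r
      · refine ⟨1, fun g => ?_⟩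
        fin_cases g <;> simp [slo] <;> rcases hκ with rfl | rfl <;> omega
      · refine ⟨0, fun g => ?_⟩
        fin_cases g <;> simp [slo] <;> rcases hκ with rfl | rfl <;> omega
    · exact absurd hp (by norm_num)
  · by_contra hcon
    push Not at hcon
    have h6 : ∀ t : Fin 5, ∃ g : Fin 4, (p : ℤ) ∣ slo g * ((t : ℕ) : ℤ) + (r + (![0, 0, κ, -κ] : Fin 4 → ℤ) g) :=
      fun t => hcon _
    choose F hF using h6
    obtain ⟨t, t', hne, he⟩ := Fintype.exists_ne_map_eq_of_card_lt F (by simp)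
    have h7 := hF t
    have h8 := hF t'
    rw [← he] at h8
    have h9 := dvd_sub h7 h8
    have h10 : slo (F t) * ((t : ℕ) : ℤ) + (r + (![0, 0, κ, -κ] : Fin 4 → ℤ) (F t)) -
        (slo (F t) * ((t' : ℕ) : ℤ) + (r + (![0, 0, κ, -κ] : Fin 4 → ℤ) (F t))) =
        slo (F t) * (((t : ℕ) : ℤ) - ((t' : ℕ) : ℤ)) := by ring
    rw [h10] at h9
    have hpp := Nat.prime_iff_prime_int.1 hp
    have hne' : ((t : ℕ) : ℤ) - ((t' : ℕ) : ℤ) ≠ 0 := by
      intro h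
      apply hne
      apply Fin.ext
      omega
    have ht := t.2
    have ht' := t'.2
    rcases hpp.dvd_or_dvd h9 with h | h
    · have h11 := Int.le_of_dvd (by rw [abs_pos]; exact slo_ne _) ((dvd_abs _ _).2 h)
      have h12 := slo_le (F t)
      have h13 : (5 : ℤ) ≤ p := by exact_mod_cast h5
      linarith
    · have h11 := Int.le_of_dvd (by rw [abs_pos]; exact hne') ((dvd_abs _ _).2 h)
      have h12 : |((t : ℕ) : ℤ) - ((t' : ℕ) : ℤ)| ≤ 4 := by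
        rw [abs_le]
        constructor <;> omega
      have h13 : (5 : ℤ) ≤ p := by exact_mod_cast h5
      linarith

/-- the equations -/
def EQ (κ : ℤ) : Finset ((ℤ × ℤ × ℤ) × ℤ) :=
  {((1, 1, 2), 0), ((2, -1, 1), κ), ((2, -1, 1), -κ), ((2, 1, 3), κ), ((2, 1, 3), -κ)}

theorem EQ_card (κ : ℤ) : (EQ κ).card ≤ 5 := by
  unfold EQ
  exact Finset.card_le_five

open Classical in
/-- the solutions of the equation `a.1 * p + a.2.1 * q = a.2.2 * M + e` -/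
noncomputable def sol (a : (ℤ × ℤ × ℤ) × ℤ) (M : ℕ) : Finset ℕ :=
  (range (2 * M + 1)).filter (fun p => p.Prime ∧ ∃ q : ℕ, q.Prime ∧
    a.1.1 * (p : ℤ) + a.1.2.1 * (q : ℤ) = a.1.2.2 * (M : ℤ) + a.2)

theorem toNat_prime {z : ℤ} (h : z.toNat.Prime) : ((z.toNat : ℕ) : ℤ) = z := by
  apply Int.toNat_of_nonneg
  by_contra hn
  rw [Int.toNat_of_nonpos (by omega)] at h
  exact Nat.not_prime_zero h

theorem pairs4 : ∀ g g' : Fin 4, g < g' → (g = 0 ∧ g' = 1) ∨ (g = 0 ∧ g' = 2) ∨ (g = 0 ∧ g' = 3) ∨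
    (g = 1 ∧ g' = 2) ∨ (g = 1 ∧ g' = 3) ∨ (g = 2 ∧ g' = 3) := by
  decide

/-- two primes give a solution of one of the equations -/
theorem pair (r Q κ : ℤ) (B : Finset ℕ) (x : Fin 4 → ℤ) (hx : Rel B x) (t : ℤ) (g g' : Fin 4)
    (hg : g < g') (h1 : (slo g * t + cen r Q κ g (x g)).toNat.Prime)
    (h2 : (slo g' * t + cen r Q κ g' (x g')).toNat.Prime) : ∃ k ∈ B, ∀ M : ℕ, (M : ℤ) = r + Q * k →
    slo g * t + cen r Q κ g (x g) ≤ 2 * M →
    ∃ q ∈ EQ κ, (slo g * t + cen r Q κ g (x g)).toNat ∈ sol q M := by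
  classical
  obtain ⟨R1, R2, R3, R4, R5, R6⟩ := hx
  have e1 := toNat_prime h1
  have e2 := toNat_prime h2
  have key : ∀ (a : (ℤ × ℤ × ℤ) × ℤ) (k : ℕ), k ∈ B → a ∈ EQ κ →
      a.1.1 * (slo g * t + cen r Q κ g (x g)) + a.1.2.1 * (slo g' * t + cen r Q κ g' (x g')) =
        a.1.2.2 * (r + Q * k) + a.2 → ∃ k ∈ B, ∀ M : ℕ, (M : ℤ) = r + Q * k →
    slo g * t + cen r Q κ g (x g) ≤ 2 * M →
    ∃ q ∈ EQ κ, (slo g * t + cen r Q κ g (x g)).toNat ∈ sol q M := by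
    intro a k hk ha he
    refine ⟨k, hk, fun M hM hle => ⟨a, ha, ?_⟩⟩
    unfold sol
    rw [mem_filter, mem_range]
    refine ⟨by omega, h1, _, h2, ?_⟩
    rw [e1, e2, hM]
    exact he
  have hcase : (g = 0 ∧ g' = 1) ∨ (g = 0 ∧ g' = 2) ∨ (g = 0 ∧ g' = 3) ∨ (g = 1 ∧ g' = 2) ∨
      (g = 1 ∧ g' = 3) ∨ (g = 2 ∧ g' = 3) := pairs4 g g' hg
  rcases hcase with ⟨rfl, rfl⟩ | ⟨rfl, rfl⟩ | ⟨rfl, rfl⟩ | ⟨rfl, rfl⟩ | ⟨rfl, rfl⟩ | ⟨rfl, rfl⟩
  · obtain ⟨k, hk, hr⟩ := R1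
    refine key ((1, 1, 2), 0) k hk (by simp [EQ]) ?_
    simp [slo, cen]
    linear_combination Q * hr
  · obtain ⟨k, hk, hr⟩ := R2
    refine key ((2, -1, 1), -κ) k hk (by simp [EQ]) ?_
    simp [slo, cen]
    linear_combination Q * hr
  · obtain ⟨k, hk, hr⟩ := R3
    refine key ((2, 1, 3), -κ) k hk (by simp [EQ]) ?_
    simp [slo, cen]
    linear_combination Q * hr
  · obtain ⟨k, hk, hr⟩ := R4
    refine key ((2, 1, 3), κ) k hk (by simp [EQ]) ?_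
    simp [slo, cen]
    linear_combination Q * hr
  · obtain ⟨k, hk, hr⟩ := R5
    refine key ((2, -1, 1), κ) k hk (by simp [EQ]) ?_
    simp [slo, cen]
    linear_combination Q * hr
  · obtain ⟨k, hk, hr⟩ := R6
    refine key ((1, 1, 2), 0) k hk (by simp [EQ]) ?_
    simp [slo, cen]
    linear_combination Q * hr

open Classical in
/-- the pointwise bound -/
theorem ptw {ι : Type} [Fintype ι] (G : Finset ((ι → ℤ) × ℕ)) (s₀ : ℕ) (Wτ : Finset ℕ)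
    (Wf : ι → Finset ℤ) (val : ι → ℤ → ℕ → ℤ) (hinj : ∀ x t, Function.Injective (fun a => val x a t))
    (hG : ∀ q ∈ G, q.2 ∈ Wτ ∧ ∃ s ≤ s₀, ∀ x, val x (q.1 x) (q.2 + s) ∈ Wf x) :
    G.card ≤ (s₀ + 1) * (Wτ.card * ∏ x, (Wf x).card) := by
  have hex : ∀ q : (ι → ℤ) × ℕ, ∃ s : ℕ, q ∈ G → s ≤ s₀ ∧ ∀ x, val x (q.1 x) (q.2 + s) ∈ Wf x := by
    intro q
    by_cases hq : q ∈ G
    · obtain ⟨-, s, hs, hx⟩ := hG q hq
      exact ⟨s, fun _ => ⟨hs, hx⟩⟩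
    · exact ⟨0, fun h => absurd h hq⟩
  choose s hs using hex
  have h1 : G.card ≤ (range (s₀ + 1) ×ˢ (Wτ ×ˢ Fintype.piFinset Wf)).card := by
    refine card_le_card_of_injOn (fun q => (s q, q.2, fun x => val x (q.1 x) (q.2 + s q))) ?_ ?_
    · intro q hq
      have h2 := hG q hq
      obtain ⟨h3, h4⟩ := hs q hq
      rw [mem_coe, mem_product, mem_product, mem_range, Fintype.mem_piFinset]
      exact ⟨by simp only; omega, h2.1, h4⟩
    · rintro ⟨A, τ⟩ hq ⟨A', τ'⟩ hq' he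
      simp only [Prod.mk.injEq] at he
      obtain ⟨e1, e2, e3⟩ := he
      subst e2
      rw [← e1] at e3
      have e4 : A = A' := by
        funext x
        exact hinj x _ (congrFun e3 x)
      rw [e4]
  rw [card_product, card_product, card_range, Fintype.card_piFinset] at h1
  exact h1

open Classical in
/-- double counting -/
theorem dcount {β : Type} (A0 : Finset β) (R : β → Finset ℕ) (h : ℕ) (I : Finset ℕ)
    (hI : ∀ A ∈ A0, ∀ n ∈ R A, ∀ τ < h, τ ≤ n ∧ n - τ ∈ I) :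
    h * ∑ A ∈ A0, (R A).card ≤ ∑ m ∈ I, ((A0 ×ˢ range h).filter (fun q => m + q.2 ∈ R q.1)).card := by
  have h1 : h * ∑ A ∈ A0, (R A).card = ((A0.sigma R) ×ˢ range h).card := by
    rw [card_product, card_sigma, card_range, mul_comm]
  rw [h1, ← card_sigma]
  refine card_le_card_of_injOn (fun q => ⟨q.1.2 - q.2, (q.1.1, q.2)⟩) ?_ ?_
  · rintro ⟨⟨A, n⟩, τ⟩ hq
    rw [mem_coe, mem_product, mem_sigma, mem_range] at hq
    simp only at hq
    obtain ⟨h2, h3⟩ := hI A hq.1.1 n hq.1.2 τ hq.2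
    rw [mem_coe, mem_sigma, mem_filter, mem_product, mem_range]
    refine ⟨h3, ⟨hq.1.1, hq.2⟩, ?_⟩
    show n - τ + τ ∈ R A
    rw [Nat.sub_add_cancel h2]
    exact hq.1.2
  · rintro ⟨⟨A, n⟩, τ⟩ hq ⟨⟨A', n'⟩, τ'⟩ hq' he
    rw [mem_coe, mem_product, mem_sigma, mem_range] at hq hq'
    simp only at hq hq'
    obtain ⟨h2, -⟩ := hI A hq.1.1 n hq.1.2 τ hq.2
    obtain ⟨h2', -⟩ := hI A' hq'.1.1 n' hq'.1.2 τ' hq'.2
    simp only [Sigma.mk.injEq, heq_eq_eq, Prod.mk.injEq] at he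
    obtain ⟨e1, e2, e3⟩ := he
    subst e2 e3
    have : n = n' := by omega
    subst this
    rfl

/-- products of five quantities -/
theorem prod_bd (K : ℕ) (hK : 1 ≤ K) (a : Fin 5 → ℕ) :
    ((a 4 : ℝ) * ∏ x : Fin 4 × Fin K, (a x.1.castSucc : ℝ)) ^ 2 ≤ ∑ j, (a j : ℝ) ^ (10 * K) := by
  obtain ⟨j, -, hj⟩ := exists_max_image (univ : Finset (Fin 5)) a ⟨0, mem_univ _⟩
  have h1 : ∀ i, (a i : ℝ) ≤ a j := fun i => by exact_mod_cast hj i (mem_univ _)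
  have h2 : ∏ x : Fin 4 × Fin K, (a x.1.castSucc : ℝ) ≤ (a j : ℝ) ^ (4 * K) := by
    refine (prod_le_prod (fun _ _ => Nat.cast_nonneg _) (fun x _ => h1 _)).trans ?_
    rw [prod_const, card_univ, Fintype.card_prod, Fintype.card_fin, Fintype.card_fin]
  have h3 : (a 4 : ℝ) * ∏ x : Fin 4 × Fin K, (a x.1.castSucc : ℝ) ≤ (a j : ℝ) ^ (5 * K) := by
    calc (a 4 : ℝ) * ∏ x : Fin 4 × Fin K, (a x.1.castSucc : ℝ) ≤ a j * (a j : ℝ) ^ (4 * K) :=
          mul_le_mul (h1 4) h2 (prod_nonneg fun _ _ => Nat.cast_nonneg _) (Nat.cast_nonneg _)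
      _ = (a j : ℝ) ^ (4 * K + 1) := by rw [pow_succ]; ring
      _ ≤ (a j : ℝ) ^ (5 * K) := by
          rcases Nat.eq_zero_or_pos (a j) with h0 | h0
          · rw [h0, Nat.cast_zero, zero_pow (by omega), zero_pow (by omega)]
          · exact pow_le_pow_right₀ (by exact_mod_cast h0) (by omega)
  calc ((a 4 : ℝ) * ∏ x : Fin 4 × Fin K, (a x.1.castSucc : ℝ)) ^ 2 ≤ ((a j : ℝ) ^ (5 * K)) ^ 2 :=
        pow_le_pow_left₀ (mul_nonneg (Nat.cast_nonneg _) (prod_nonneg fun _ _ => Nat.cast_nonneg _)) h3 2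
    _ = (a j : ℝ) ^ (10 * K) := by rw [← pow_mul]; congr 1; ring
    _ ≤ ∑ j, (a j : ℝ) ^ (10 * K) :=
        single_le_sum (f := fun j => (a j : ℝ) ^ (10 * K)) (fun _ _ => by positivity) (mem_univ j)

end Pool.Agent.T6.H3.TE
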