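import Mathlib

/-! Statements of the two analytic inputs. -/

set_option autoImplicit false

namespace Pool.Agent.T6.H3.TE

open Finset Filter Topology

/-- the linear form `f.1 * n + f.2`: primitive, slope at most `A`, constant term at most `5 N / 4`,
values at least `N / 24` on `[N / 16, N / 2]` -/
def Ad2 (A N : ℕ) (f : ℤ × ℤ) : Prop :=
  f.1 ≠ 0 ∧ |f.1| ≤ A ∧ 4 * |f.2| ≤ 5 * N ∧ IsCoprime f.1 f.2 ∧
    ∀ t : ℝ, (N : ℝ) / 16 ≤ t → t ≤ N / 2 → (N : ℝ) / 24 ≤ f.1 * t + f.2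

open Classical in
/-- the `n`, `N / 16 ≤ n ≤ N / 2`, such that `n` and all the forms at `n + s` are free of primes
`≤ N ^ δ` and the forms `H g (σ g)`, `g ∈ S`, are prime at `n + s` -/
noncomputable def R2 {T K : ℕ} (H : Fin T → Fin K → ℤ × ℤ) (δ : ℝ) (s : ℕ) (S : Finset (Fin T))
    (σ : Fin T → Fin K) (N : ℕ) : Finset ℕ :=
  (Icc 1 N).filter (fun n : ℕ => (N : ℝ) / 16 ≤ n ∧ (n : ℝ) ≤ N / 2 ∧
    (∀ p : ℕ, p.Prime → Real.log p ≤ δ * Real.log N → ¬ (p : ℤ) ∣ (n : ℤ)) ∧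
    (∀ g i, ∀ p : ℕ, p.Prime → Real.log p ≤ δ * Real.log N →
      ¬ (p : ℤ) ∣ (H g i).1 * ((n : ℤ) + s) + (H g i).2) ∧
    ∀ g ∈ S, ((H g (σ g)).1 * ((n : ℤ) + s) + (H g (σ g)).2).toNat.Prime)

/-- the coloured theorem -/
def LamS (T M K : ℕ) (δ : ℝ) : Prop := ∀ (A : ℕ), ∃ (s₀ : ℕ) (c : ℝ), 0 < c ∧ ∀ᶠ N : ℕ in atTop,
    ∀ H : Fin T → Fin K → ℤ × ℤ,
    Function.Injective (fun x : Fin T × Fin K => H x.1 x.2) → (∀ g i, Ad2 A N (H g i)) →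
    (∀ p : ℕ, p.Prime → p ≤ T * K → ∃ r : ℤ, ∀ g i, ¬ (p : ℤ) ∣ (H g i).1 * r + (H g i).2) →
    ∃ (s : ℕ) (S : Finset (Fin T)) (σ : Fin T → Fin K), s ≤ s₀ ∧ M + 1 ≤ S.card ∧
      c * (N / (Real.log N) ^ (T * K + 1)) ≤ ((R2 H δ s S σ N).card : ℝ)

/-- the number of the `h ≤ T` such that `n + h` has no prime factor up to `y` -/
def Nw (y T n : ℕ) : ℕ :=
  ((Icc 1 T).filter (fun h => ∀ p ∈ (Icc 1 y).filter Nat.Prime, ¬ p ∣ n + h)).card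

/-- moments of the number of the rough integers in short intervals -/
def MomS : Prop := ∀ (k : ℕ) (Λ δ : ℝ), 0 < Λ → 0 < δ → ∃ (θ C : ℝ), 0 < θ ∧ θ ≤ δ ∧ 0 < C ∧
    ∀ᶠ N : ℕ in atTop, ∀ T : ℕ, (T : ℝ) ≤ Λ * Real.log N → ∀ Z : ℕ,
    ∑ n ∈ Ioc Z (Z + N), ((Nw ⌊(N : ℝ) ^ θ⌋₊ T n : ℕ) : ℝ) ^ (k + 1) ≤ C * N

end Pool.Agent.T6.H3.TE
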