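import Mathlib
import Pool.Agent.T6.H3.TE.Gen
import Pool.Agent.T6.H3.TE.Stm

/-! The average over the translates: the counting. -/

set_option autoImplicit false

namespace Pool.Agent.T6.H3.TE

open Finset Filter Topology

/-- the starting points of the five windows -/
def pos (u h m : ℕ) : Fin 5 → ℕ :=
  ![u + m - 5 * h, u - m - 7 * h, u + 2 * m - 5 * h, u - 2 * m - 9 * h, m - 1]

/-- the product of the five counts -/
def FF (K y T u h m : ℕ) : ℝ :=
  (Nw y T (pos u h m 4) : ℝ) * ∏ x : Fin 4 × Fin K, (Nw y T (pos u h m x.1.castSucc) : ℝ)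

theorem pos_inj (u h N : ℕ) (hu : N + 9 * h + 1 ≤ u) (j : Fin 5) :
    Set.InjOn (fun m => pos u h m j) (Icc 2 (N / 2) : Finset ℕ) := by
  intro m hm m' hm' he
  rw [mem_coe, mem_Icc] at hm hm'
  fin_cases j <;> simp [pos] at he <;> omega

theorem one_sum (u h N : ℕ) (hu : N + 9 * h + 1 ≤ u) (f : ℕ → ℝ) (hf : ∀ n, 0 ≤ f n) (B : ℝ)
    (hB : ∀ Z : ℕ, ∑ n ∈ Ioc Z (Z + N), f n ≤ B) (j : Fin 5) :
    ∑ m ∈ Icc 2 (N / 2), f (pos u h m j) ≤ B := by
  rw [← sum_image (f := f) (g := fun m => pos u h m j) (pos_inj u h N hu j)]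
  refine le_trans ?_ (hB ((![u - 5 * h, u - 7 * h - N - 1, u - 5 * h, u - 9 * h - N - 1, 0] :
    Fin 5 → ℕ) j))
  refine sum_le_sum_of_subset_of_nonneg ?_ (fun _ _ _ => hf _)
  intro n hn
  obtain ⟨m, hm, rfl⟩ := mem_image.1 hn
  rw [mem_Icc] at hm
  rw [mem_Ioc]
  fin_cases j <;> simp [pos] <;> omega

theorem FF_nonneg (K y T u h m : ℕ) : 0 ≤ FF K y T u h m := by
  unfold FF
  exact mul_nonneg (Nat.cast_nonneg _) (prod_nonneg fun _ _ => Nat.cast_nonneg _)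

theorem stage2 (K : ℕ) (hK : 1 ≤ K) (y T u h N : ℕ) (hu : N + 9 * h + 1 ≤ u) (C : ℝ)
    (hmom : ∀ Z : ℕ, ∑ n ∈ Ioc Z (Z + N), ((Nw y T n : ℕ) : ℝ) ^ (10 * K) ≤ C * N)
    (E : Finset ℕ) (hE : E ⊆ Icc 2 (N / 2)) :
    (∑ m ∈ E, FF K y T u h m) ^ 2 ≤ E.card * (5 * (C * N)) := by
  have h1 : (∑ m ∈ E, FF K y T u h m) ^ 2 ≤ E.card * ∑ m ∈ E, FF K y T u h m ^ 2 :=
    sq_sum_le_card_mul_sum_sq
  refine h1.trans (mul_le_mul_of_nonneg_left ?_ (Nat.cast_nonneg _))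
  calc ∑ m ∈ E, FF K y T u h m ^ 2 ≤ ∑ m ∈ Icc 2 (N / 2), FF K y T u h m ^ 2 :=
        sum_le_sum_of_subset_of_nonneg hE (fun _ _ _ => by positivity)
    _ ≤ ∑ m ∈ Icc 2 (N / 2), ∑ j : Fin 5, ((Nw y T (pos u h m j) : ℕ) : ℝ) ^ (10 * K) :=
        sum_le_sum fun m _ => prod_bd K hK (fun j => Nw y T (pos u h m j))
    _ = ∑ j : Fin 5, ∑ m ∈ Icc 2 (N / 2), ((Nw y T (pos u h m j) : ℕ) : ℝ) ^ (10 * K) := sum_comm
    _ ≤ ∑ _j : Fin 5, C * N := by
        refine sum_le_sum fun j _ => ?_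
        exact one_sum u h N hu (fun n => ((Nw y T n : ℕ) : ℝ) ^ (10 * K)) (fun _ => by positivity)
          _ hmom j
    _ = 5 * (C * N) := by rw [sum_const, card_univ, Fintype.card_fin]; simp

/-- no prime factor up to `y` -/
def Rou (y : ℕ) (z : ℤ) : Prop := ∀ p : ℕ, p.Prime → p ≤ y → ¬ (p : ℤ) ∣ z

open Classical in
/-- the good `n` for a family -/
noncomputable def RA (K y N s₀ : ℕ) (r Q κ : ℤ) (A : Fin 4 × Fin K → ℤ) : Finset ℕ :=
  (Icc 1 N).filter (fun n : ℕ => N ≤ 16 * n ∧ 2 * n ≤ N ∧ Rou y n ∧ ∃ s ≤ s₀,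
    (∀ x : Fin 4 × Fin K, Rou y (slo x.1 * ((n : ℤ) + s) + cen r Q κ x.1 (A x))) ∧
    ∃ g g' : Fin 4, ∃ i i' : Fin K, g < g' ∧
      (slo g * ((n : ℤ) + s) + cen r Q κ g (A (g, i))).toNat.Prime ∧
      (slo g' * ((n : ℤ) + s) + cen r Q κ g' (A (g', i'))).toNat.Prime)

/-- the values lie in the windows -/
theorem win_pos (u h N m t : ℕ) (hu : N + 9 * h + 1 ≤ u) (hh : 1 ≤ h) (hm : 2 ≤ m) (hm2 : 2 * m ≤ N)
    (ht : t ≤ 2 * h) (c : ℤ) (hc : (u : ℤ) - 4 * h ≤ c ∧ c ≤ u + 8 * h) (g : Fin 4) :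
    (pos u h m g.castSucc : ℤ) < slo g * ((m : ℤ) + t) + c ∧
      slo g * ((m : ℤ) + t) + c ≤ pos u h m g.castSucc + 20 * h := by
  obtain ⟨hc1, hc2⟩ := hc
  have e0 : ((u + m - 5 * h : ℕ) : ℤ) = u + m - 5 * h := by omega
  have e1 : ((u - m - 7 * h : ℕ) : ℤ) = u - m - 7 * h := by omega
  have e2 : ((u + 2 * m - 5 * h : ℕ) : ℤ) = u + 2 * m - 5 * h := by omega
  have e3 : ((u - 2 * m - 9 * h : ℕ) : ℤ) = u - 2 * m - 9 * h := by omega
  fin_cases g
  · show ((u + m - 5 * h : ℕ) : ℤ) < 1 * ((m : ℤ) + t) + c ∧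
      1 * ((m : ℤ) + t) + c ≤ ((u + m - 5 * h : ℕ) : ℤ) + 20 * h
    constructor <;> omega
  · show ((u - m - 7 * h : ℕ) : ℤ) < -1 * ((m : ℤ) + t) + c ∧
      -1 * ((m : ℤ) + t) + c ≤ ((u - m - 7 * h : ℕ) : ℤ) + 20 * h
    constructor <;> omega
  · show ((u + 2 * m - 5 * h : ℕ) : ℤ) < 2 * ((m : ℤ) + t) + c ∧
      2 * ((m : ℤ) + t) + c ≤ ((u + 2 * m - 5 * h : ℕ) : ℤ) + 20 * h
    constructor <;> omega
  · show ((u - 2 * m - 9 * h : ℕ) : ℤ) < -2 * ((m : ℤ) + t) + c ∧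
      -2 * ((m : ℤ) + t) + c ≤ ((u - 2 * m - 9 * h : ℕ) : ℤ) + 20 * h
    constructor <;> omega

open Classical in
theorem stage1 (K y N s₀ u h : ℕ) (hu : N + 9 * h + 1 ≤ u) (hh : 1 ≤ h) (hs₀ : s₀ ≤ h)
    (r Q κ : ℤ) (hQ : Q ≠ 0) (A0 : Finset (Fin 4 × Fin K → ℤ))
    (hA : ∀ A ∈ A0, ∀ x, (u : ℤ) - 4 * h ≤ cen r Q κ x.1 (A x) ∧ cen r Q κ x.1 (A x) ≤ u + 8 * h)
    (m : ℕ) (hm : 2 ≤ m) (hm2 : 2 * m ≤ N) :
    ((((A0 ×ˢ range h).filter (fun q => m + q.2 ∈ RA K y N s₀ r Q κ q.1)).card : ℕ) : ℝ) ≤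
      (s₀ + 1) * FF K y (20 * h) u h m := by
  obtain ⟨Wτ, hWτ⟩ : ∃ Wτ : Finset ℕ, Wτ = (range h).filter (fun τ => Rou y ((m + τ : ℕ) : ℤ)) :=
    ⟨_, rfl⟩
  obtain ⟨Wf, hWf⟩ : ∃ Wf : Fin 4 × Fin K → Finset ℤ, Wf = fun x =>
      ((Icc 1 (20 * h)).filter (fun v => ∀ p ∈ (Icc 1 y).filter Nat.Prime,
        ¬ p ∣ pos u h m x.1.castSucc + v)).image (fun v : ℕ => (pos u h m x.1.castSucc : ℤ) + v) :=
    ⟨_, rfl⟩
  have h1 := ptw ((A0 ×ˢ range h).filter (fun q => m + q.2 ∈ RA K y N s₀ r Q κ q.1)) s₀ Wτ Wf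
    (fun x a t => slo x.1 * ((m : ℤ) + t) + cen r Q κ x.1 a)
    (fun x t a b hab => by
      simp only at hab
      exact cen_inj (r := r) (κ := κ) (g := x.1) hQ (by linarith))
    (by
      rintro ⟨A, τ⟩ hq
      rw [mem_filter, mem_product, mem_range] at hq
      obtain ⟨⟨hA0, hτ⟩, hR⟩ := hq
      simp only at hA0 hτ hR
      unfold RA at hR
      rw [mem_filter] at hR
      obtain ⟨-, -, -, h2, s, hs, h3, -⟩ := hR
      refine ⟨?_, s, hs, fun x => ?_⟩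
      · rw [hWτ, mem_filter, mem_range]
        exact ⟨hτ, h2⟩
      · have h4 := h3 x
        have h5 := win_pos u h N m (τ + s) hu hh hm hm2 (by omega) _ (hA A hA0 x) x.1
        have e1 : slo x.1 * (((m + τ : ℕ) : ℤ) + s) = slo x.1 * ((m : ℤ) + ((τ + s : ℕ) : ℤ)) := by
          push_cast
          ring
        rw [e1] at h4
        simp only
        obtain ⟨z, hz⟩ : ∃ z : ℤ, z = slo x.1 * ((m : ℤ) + ((τ + s : ℕ) : ℤ)) + cen r Q κ x.1 (A x) :=
          ⟨_, rfl⟩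
        rw [← hz] at h4 h5 ⊢
        obtain ⟨v, hv⟩ : ∃ v : ℕ, z = (pos u h m x.1.castSucc : ℤ) + v :=
          ⟨(z - pos u h m x.1.castSucc).toNat, by omega⟩
        rw [hWf, mem_image]
        refine ⟨v, ?_, hv.symm⟩
        rw [mem_filter, mem_Icc]
        refine ⟨by omega, fun p hp hd => ?_⟩
        rw [mem_filter, mem_Icc] at hp
        apply h4 p hp.2 hp.1.2
        rw [hv]
        exact_mod_cast hd)
  have h2 : Wτ.card ≤ Nw y (20 * h) (pos u h m 4) := by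
    unfold Nw
    refine card_le_card_of_injOn (fun τ => τ + 1) ?_ (fun a _ b _ hab => by simpa using hab)
    intro τ hτ
    rw [hWτ, mem_coe, mem_filter, mem_range] at hτ
    rw [mem_coe, mem_filter, mem_Icc]
    refine ⟨by simp only; omega, fun p hp hd => ?_⟩
    rw [mem_filter, mem_Icc] at hp
    apply hτ.2 p hp.2 hp.1.2
    have e1 : pos u h m 4 = m - 1 := rfl
    rw [e1] at hd
    have e2 : m - 1 + (τ + 1) = m + τ := by omega
    simp only at hd
    rw [e2] at hd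
    exact_mod_cast hd
  have h3 : ∀ x, (Wf x).card ≤ Nw y (20 * h) (pos u h m x.1.castSucc) := by
    intro x
    rw [hWf]
    exact card_image_le
  have h4 : (s₀ + 1) * (Wτ.card * ∏ x, (Wf x).card) ≤
      (s₀ + 1) * (Nw y (20 * h) (pos u h m 4) * ∏ x : Fin 4 × Fin K,
        Nw y (20 * h) (pos u h m x.1.castSucc)) :=
    Nat.mul_le_mul_left _ (Nat.mul_le_mul h2 (prod_le_prod' fun x _ => h3 x))
  have h5 := (Nat.cast_le (α := ℝ)).2 (h1.trans h4)
  unfold FF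
  push_cast at h5
  exact h5

open Classical in
/-- the bad integers -/
noncomputable def Bad (κ : ℤ) (δ' : ℝ) (u h : ℕ) : Finset ℕ :=
  (Ioc u (u + h)).filter (fun M : ℕ => Odd ((M : ℤ) + κ) ∧
    ∀ q ∈ EQ κ, ((sol q M).card : ℝ) < δ' * (M / Real.log M ^ 2))

open Classical in
/-- few places near solutions -/
theorem upE (κ : ℤ) (δ' : ℝ) (hδ' : 0 < δ') (u h N : ℕ) (hu : N + 9 * h + 1 ≤ u) (hh : 1 ≤ h)
    (E : Finset ℕ) (hE : E ⊆ Icc 2 (N / 2))
    (hE2 : ∀ m ∈ E, ∃ M ∈ Bad κ δ' u h, ∃ q ∈ EQ κ, ∃ p ∈ sol q M, ∃ j : Fin 5,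
      pos u h m j < p ∧ p ≤ pos u h m j + 20 * h) :
    (E.card : ℝ) ≤ 1000 * δ' * u * (h / Real.log u) ^ 2 := by
  have hu2 : 2 ≤ u := by omega
  have hlu : 0 < Real.log u := Real.log_pos (by exact_mod_cast hu2)
  have h1 : E ⊆ (Bad κ δ' u h).biUnion (fun M => (EQ κ).biUnion (fun q => (sol q M).biUnion
      (fun p => (univ : Finset (Fin 5)).biUnion (fun j => (Icc 2 (N / 2)).filter (fun m =>
        pos u h m j < p ∧ p ≤ pos u h m j + 20 * h))))) := by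
    intro m hm
    obtain ⟨M, hM, q, hq, p, hp, j, hj⟩ := hE2 m hm
    rw [mem_biUnion]
    refine ⟨M, hM, ?_⟩
    rw [mem_biUnion]
    refine ⟨q, hq, ?_⟩
    rw [mem_biUnion]
    refine ⟨p, hp, ?_⟩
    rw [mem_biUnion]
    refine ⟨j, mem_univ _, ?_⟩
    rw [mem_filter]
    exact ⟨hE hm, hj⟩
  have h2 : ∀ (p : ℕ) (j : Fin 5), ((Icc 2 (N / 2)).filter (fun m =>
        pos u h m j < p ∧ p ≤ pos u h m j + 20 * h)).card ≤ 20 * h := by
    intro p j
    have h3 : ((Icc 2 (N / 2)).filter (fun m =>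
        pos u h m j < p ∧ p ≤ pos u h m j + 20 * h)).card ≤ (Ico (p - 20 * h) p).card := by
      refine card_le_card_of_injOn (fun m => pos u h m j) ?_ ?_
      · intro m hm
        rw [mem_coe, mem_filter] at hm
        rw [mem_coe, mem_Ico]
        constructor <;> simp only <;> omega
      · intro m hm m' hm' he
        rw [mem_coe, mem_filter] at hm hm'
        exact pos_inj u h N hu j (mem_coe.2 hm.1) (mem_coe.2 hm'.1) he
    rw [Nat.card_Ico] at h3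
    omega
  have h3 : ∀ M ∈ Bad κ δ' u h, (((EQ κ).biUnion (fun q => (sol q M).biUnion
      (fun p => (univ : Finset (Fin 5)).biUnion (fun j => (Icc 2 (N / 2)).filter (fun m =>
        pos u h m j < p ∧ p ≤ pos u h m j + 20 * h))))).card : ℝ) ≤
      5 * (δ' * (2 * u / Real.log u ^ 2) * (100 * h)) := by
    intro M hM
    have hM' := hM
    unfold Bad at hM'
    rw [mem_filter, mem_Ioc] at hM'
    obtain ⟨⟨hM1, hM2⟩, -, hM3⟩ := hM'
    have hq : ∀ q ∈ EQ κ, (((sol q M).biUnion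
      (fun p => (univ : Finset (Fin 5)).biUnion (fun j => (Icc 2 (N / 2)).filter (fun m =>
        pos u h m j < p ∧ p ≤ pos u h m j + 20 * h)))).card : ℝ) ≤
        δ' * (2 * u / Real.log u ^ 2) * (100 * h) := by
      intro q hq
      have h4 : ((sol q M).biUnion
        (fun p => (univ : Finset (Fin 5)).biUnion (fun j => (Icc 2 (N / 2)).filter (fun m =>
        pos u h m j < p ∧ p ≤ pos u h m j + 20 * h)))).card ≤ (sol q M).card * (100 * h) := by
        refine card_biUnion_le_card_mul _ _ _ fun p _ => ?_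
        refine (card_biUnion_le_card_mul _ _ (20 * h) fun j _ => h2 p j).trans ?_
        rw [card_univ, Fintype.card_fin]
        omega
      have h5 : (((sol q M).card : ℕ) : ℝ) ≤ δ' * (2 * u / Real.log u ^ 2) := by
        refine (hM3 q hq).le.trans (mul_le_mul_of_nonneg_left ?_ hδ'.le)
        have h6 : (M : ℝ) ≤ 2 * u := by
          have : M ≤ 2 * u := by omega
          exact_mod_cast this
        have h7 : Real.log u ≤ Real.log M :=
          Real.log_le_log (by exact_mod_cast (by omega : 0 < u)) (by exact_mod_cast hM1.le)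
        exact div_le_div₀ (by positivity) h6 (by positivity) (pow_le_pow_left₀ hlu.le h7 2)
      have h8 := (Nat.cast_le (α := ℝ)).2 h4
      push_cast at h8
      refine h8.trans (mul_le_mul_of_nonneg_right h5 (by positivity))
    have h4 : (((EQ κ).biUnion (fun q => (sol q M).biUnion
      (fun p => (univ : Finset (Fin 5)).biUnion (fun j => (Icc 2 (N / 2)).filter (fun m =>
        pos u h m j < p ∧ p ≤ pos u h m j + 20 * h))))).card : ℝ) ≤
        ∑ q ∈ EQ κ, (((sol q M).biUnion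
      (fun p => (univ : Finset (Fin 5)).biUnion (fun j => (Icc 2 (N / 2)).filter (fun m =>
        pos u h m j < p ∧ p ≤ pos u h m j + 20 * h)))).card : ℝ) := by
      exact_mod_cast card_biUnion_le
    refine h4.trans ((sum_le_sum hq).trans ?_)
    rw [sum_const, nsmul_eq_mul]
    have h5 : ((EQ κ).card : ℝ) ≤ 5 := by exact_mod_cast EQ_card κ
    exact mul_le_mul_of_nonneg_right h5 (by positivity)
  have h4 : (E.card : ℝ) ≤ ∑ M ∈ Bad κ δ' u h, (((EQ κ).biUnion (fun q => (sol q M).biUnion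
      (fun p => (univ : Finset (Fin 5)).biUnion (fun j => (Icc 2 (N / 2)).filter (fun m =>
        pos u h m j < p ∧ p ≤ pos u h m j + 20 * h))))).card : ℝ) := by
    exact_mod_cast (card_le_card h1).trans card_biUnion_le
  refine h4.trans ((sum_le_sum h3).trans ?_)
  rw [sum_const, nsmul_eq_mul]
  have h5 : ((Bad κ δ' u h).card : ℝ) ≤ h := by
    have h6 : (Bad κ δ' u h).card ≤ h := by
      unfold Bad
      refine (card_filter_le _ _).trans ?_
      rw [Nat.card_Ioc]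
      omega
    exact_mod_cast h6
  calc ((Bad κ δ' u h).card : ℝ) * (5 * (δ' * (2 * u / Real.log u ^ 2) * (100 * h))) ≤
      h * (5 * (δ' * (2 * u / Real.log u ^ 2) * (100 * h))) :=
        mul_le_mul_of_nonneg_right h5 (by positivity)
    _ = 1000 * δ' * u * (h / Real.log u) ^ 2 := by
        field_simp
        ring

end Pool.Agent.T6.H3.TE
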