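import Mathlib
import Pool.Agent.T6.H3.TE.Comb
import Pool.Agent.Y877.RoB

/-! Many families of centres: all the six relations for all the choices. -/

set_option autoImplicit false

namespace Pool.Agent.T6.H3.TE

open Finset

open Classical in
/-- few functions with two equal values -/
theorem eq_card {ι : Type} [Fintype ι] [DecidableEq ι] (I : Finset ℤ) (a b : ι) (hab : a ≠ b) :
    (((Fintype.piFinset (fun _ : ι => I)).filter (fun A => A a = A b)).card : ℝ) ≤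
      (I.card : ℝ) ^ (Fintype.card ι - 1) := by
  have h1 : ((Fintype.piFinset (fun _ : ι => I)).filter (fun A => A a = A b)).card ≤
      (Fintype.piFinset (fun _ : {x : ι // x ≠ b} => I)).card := by
    refine card_le_card_of_injOn (fun A x => A x.1) ?_ ?_
    · intro A hA
      rw [mem_coe, mem_filter, Fintype.mem_piFinset] at hA
      rw [mem_coe, Fintype.mem_piFinset]
      exact fun x => hA.1 x.1
    · intro A hA A' hA' he
      rw [mem_coe, mem_filter] at hA hA'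
      have h2 : ∀ x, x ≠ b → A x = A' x := fun x hx => congrFun he ⟨x, hx⟩
      funext x
      by_cases hx : x = b
      · rw [hx, ← hA.2, ← hA'.2]
        exact h2 a hab
      · exact h2 x hx
  have h2 : Fintype.card {x : ι // x ≠ b} = Fintype.card ι - 1 := by
    rw [Fintype.card_subtype_compl, Fintype.card_subtype_eq]
  rw [Fintype.card_piFinset, prod_const, card_univ, h2] at h1
  exact_mod_cast h1

open Classical in
theorem conf (ε : ℝ) (hε : 0 < ε) (K : ℕ) (hK : 1 ≤ K) : ∃ (κ : ℝ) (h₀ : ℕ), 0 < κ ∧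
    ∀ h u₀ : ℕ, h₀ ≤ h → ∀ B : Finset ℕ, B ⊆ Ioc u₀ (u₀ + h) → ε * h ≤ B.card →
    ∃ A0 : Finset (Fin 4 × Fin K → ℤ),
      (∀ A ∈ A0, (∀ x, A x ∈ Icc ((u₀ : ℤ) - h) (u₀ + 3 * h)) ∧
        (∀ c : Fin 4 → Fin K, Rel B (fun g => A (g, c g))) ∧
        ∀ g i j, i ≠ j → A (g, i) ≠ A (g, j)) ∧
      κ * (h : ℝ) ^ (4 * K) ≤ (A0.card : ℝ) := by
  obtain ⟨κ, h₀, hκ, H⟩ := comb ε hε
  obtain ⟨κ', hκ'⟩ : ∃ κ' : ℝ, κ' = κ ^ (K ^ 4) := ⟨_, rfl⟩
  have hκ'0 : 0 < κ' := by rw [hκ']; positivity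
  refine ⟨κ' / 2, max h₀ (⌈8 * K * K / κ'⌉₊ + 1), by positivity, ?_⟩
  intro h u₀ hh B hB hBc
  have hh0 : h₀ ≤ h := (le_max_left _ _).trans hh
  have hh1 : ⌈8 * K * K / κ'⌉₊ + 1 ≤ h := (le_max_right _ _).trans hh
  have hh2 : 8 * K * K / κ' ≤ h :=
    (Nat.le_ceil _).trans (by exact_mod_cast (Nat.le_succ _).trans hh1)
  obtain ⟨T, hT1, hT2⟩ := H h u₀ hh0 B hB hBc
  obtain ⟨I, hI⟩ : ∃ I : Finset ℤ, I = Icc ((u₀ : ℤ) - h) (u₀ + 3 * h) := ⟨_, rfl⟩
  have hIc : (I.card : ℝ) = 4 * h + 1 := by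
    rw [hI, Int.card_Icc]
    have h1 : ((u₀ : ℤ) + 3 * h + 1 - (u₀ - h)).toNat = 4 * h + 1 := by omega
    rw [h1]
    push_cast
    ring
  obtain ⟨A1, hA1, hA2⟩ := Pool.Agent.Y877.RO.blow' K hK 4 (fun _ => I) T κ hκ.le
    (fun x hx g => by rw [hI]; exact (hT1 x hx).2 g) (by
      rw [prod_const, card_univ, Fintype.card_fin, hIc]
      exact hT2)
  rw [prod_const, card_univ, Fintype.card_fin, hIc, ← hκ', ← pow_mul] at hA2
  obtain ⟨P, hP⟩ : ∃ P : Finset (Fin 4 × Fin K × Fin K), P = univ.filter (fun q => q.2.1 ≠ q.2.2) :=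
    ⟨_, rfl⟩
  obtain ⟨E, hE⟩ : ∃ E : Finset (Fin 4 × Fin K → ℤ), E = P.biUnion (fun q =>
      (Fintype.piFinset (fun _ : Fin 4 × Fin K => I)).filter
        (fun A => A (q.1, q.2.1) = A (q.1, q.2.2))) := ⟨_, rfl⟩
  have hEc : (E.card : ℝ) ≤ 4 * K * K * (4 * (h : ℝ) + 1) ^ (4 * K - 1) := by
    have h1 : (E.card : ℝ) ≤ ∑ q ∈ P, (((Fintype.piFinset (fun _ : Fin 4 × Fin K => I)).filter
        (fun A => A (q.1, q.2.1) = A (q.1, q.2.2))).card : ℝ) := by
      rw [hE]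
      exact_mod_cast card_biUnion_le
    refine h1.trans ?_
    have h2 : ∀ q ∈ P, (((Fintype.piFinset (fun _ : Fin 4 × Fin K => I)).filter
        (fun A => A (q.1, q.2.1) = A (q.1, q.2.2))).card : ℝ) ≤
        (4 * (h : ℝ) + 1) ^ (4 * K - 1) := by
      intro q hq
      rw [hP, mem_filter] at hq
      have := eq_card I (q.1, q.2.1) (q.1, q.2.2) (by
        intro he
        exact hq.2 (Prod.ext_iff.1 he).2)
      rw [hIc, Fintype.card_prod, Fintype.card_fin, Fintype.card_fin] at this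
      exact this
    refine (sum_le_sum h2).trans ?_
    rw [sum_const, nsmul_eq_mul]
    have h3 : (P.card : ℝ) ≤ 4 * K * K := by
      have h4 : P.card ≤ 4 * (K * K) := by
        refine (card_le_univ _).trans ?_
        rw [Fintype.card_prod, Fintype.card_prod, Fintype.card_fin, Fintype.card_fin]
      have h5 : (P.card : ℝ) ≤ ((4 * (K * K) : ℕ) : ℝ) := by exact_mod_cast h4
      push_cast at h5
      linarith
    exact mul_le_mul_of_nonneg_right h3 (by positivity)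
  refine ⟨A1 \ E, fun A hA => ?_, ?_⟩
  · rw [mem_sdiff] at hA
    obtain ⟨h1, h2⟩ := hA1 A hA.1
    refine ⟨fun x => by have := h1 x; rw [hI] at this; exact this, fun c => ?_, ?_⟩
    · exact (hT1 _ (h2 c)).1
    · intro g i j hij he
      apply hA.2
      rw [hE, mem_biUnion]
      refine ⟨(g, i, j), ?_, ?_⟩
      · rw [hP, mem_filter]
        exact ⟨mem_univ _, hij⟩
      · rw [mem_filter, Fintype.mem_piFinset]
        exact ⟨fun x => h1 x, he⟩
  · have h1 : (A1.card : ℝ) ≤ ((A1 \ E).card : ℝ) + E.card := by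
      have := card_le_card_sdiff_add_card (s := A1) (t := E)
      exact_mod_cast this
    obtain ⟨n, hn⟩ : ∃ n, 4 * K = n + 1 := ⟨4 * K - 1, by omega⟩
    have hn' : 4 * K - 1 = n := by omega
    rw [hn'] at hEc
    rw [hn] at hA2 ⊢
    have h2 : 4 * (K : ℝ) * K ≤ κ' / 2 * (4 * h + 1) := by
      rw [div_le_iff₀ hκ'0] at hh2
      nlinarith
    have h3 : (E.card : ℝ) ≤ κ' / 2 * (4 * (h : ℝ) + 1) ^ (n + 1) := by
      refine hEc.trans ?_
      rw [pow_succ]
      calc 4 * (K : ℝ) * K * (4 * (h : ℝ) + 1) ^ n ≤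
          κ' / 2 * (4 * h + 1) * (4 * (h : ℝ) + 1) ^ n :=
            mul_le_mul_of_nonneg_right h2 (by positivity)
        _ = _ := by ring
    have h4 : (h : ℝ) ^ (n + 1) ≤ (4 * (h : ℝ) + 1) ^ (n + 1) := by
      have : (0 : ℝ) ≤ h := Nat.cast_nonneg _
      exact pow_le_pow_left₀ this (by linarith) _
    have h5 : κ' / 2 * (h : ℝ) ^ (n + 1) ≤ κ' / 2 * (4 * (h : ℝ) + 1) ^ (n + 1) :=
      mul_le_mul_of_nonneg_left h4 (by positivity)
    have h6 : (4 * (h : ℝ) + 1) ^ (n + 1) = (4 * (h : ℝ) + 1) ^ (4 * K) := by rw [hn]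
    have h7 : κ' * (4 * (h : ℝ) + 1) ^ (n + 1) ≤ A1.card := by
      convert hA2 using 2
    linarith

end Pool.Agent.T6.H3.TE
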