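import Mathlib
import Pool.Agent.T6.H3.TE.Avg
import Pool.Agent.T6.H3.TE.Conf

/-! The window theorem. -/

set_option autoImplicit false

namespace Pool.Agent.T6.H3.TE

open Finset Filter Topology

theorem sub_RA (K y N s₀ : ℕ) (r Q κ : ℤ) (δ : ℝ) (A : Fin 4 × Fin K → ℤ) (s : ℕ) (hs : s ≤ s₀)
    (S : Finset (Fin 4)) (hS : 2 ≤ S.card) (σ : Fin 4 → Fin K)
    (hy : ∀ p : ℕ, p.Prime → p ≤ y → Real.log p ≤ δ * Real.log N) :
    R2 (fun g i => (slo g, cen r Q κ g (A (g, i)))) δ s S σ N ⊆ RA K y N s₀ r Q κ A := by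
  classical
  intro n hn
  unfold R2 at hn
  rw [mem_filter] at hn
  obtain ⟨h1, h2, h3, h4, h5, h6⟩ := hn
  unfold RA
  rw [mem_filter]
  refine ⟨h1, ?_, ?_, fun p hp hpy => h4 p hp (hy p hp hpy), s, hs,
    fun x p hp hpy => h5 x.1 x.2 p hp (hy p hp hpy), ?_⟩
  · have : (N : ℝ) ≤ 16 * n := by linarith
    exact_mod_cast this
  · have : 2 * (n : ℝ) ≤ N := by linarith
    exact_mod_cast this
  · obtain ⟨g, hg, g', hg', hne⟩ := one_lt_card.1 (by omega : 1 < S.card)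
    rcases lt_or_gt_of_ne hne with h | h
    · exact ⟨g, g', σ g, σ g', h, h6 g hg, h6 g' hg'⟩
    · exact ⟨g', g, σ g', σ g, h, h6 g' hg', h6 g hg⟩

theorem cen_bd (u h Q r : ℕ) (κ : ℤ) (hκ : κ = 0 ∨ κ = 3) (hQ : 0 < Q) (hr : r < Q) (hh : 2 * Q ≤ h)
    (h3 : 3 ≤ h) (hu : Q ≤ u) (x : ℤ)
    (hx : ((u / Q - 1 : ℕ) : ℤ) - (h / Q + 2 : ℕ) ≤ x ∧ x ≤ ((u / Q - 1 : ℕ) : ℤ) + 3 * (h / Q + 2 : ℕ))
    (g : Fin 4) : (u : ℤ) - 4 * h ≤ cen r Q κ g x ∧ cen r Q κ g x ≤ u + 8 * h := by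
  have h1 := Nat.div_add_mod u Q
  have h2 := Nat.mod_lt u hQ
  have h4 := Nat.div_add_mod h Q
  have h5 := Nat.mod_lt h hQ
  have h6 : 1 ≤ u / Q := (Nat.one_le_div_iff hQ).2 hu
  obtain ⟨a, ha⟩ : ∃ a : ℕ, a = u / Q := ⟨_, rfl⟩
  obtain ⟨b, hb⟩ : ∃ b : ℕ, b = h / Q := ⟨_, rfl⟩
  rw [← ha] at h1 h6 hx
  rw [← hb] at h4 hx
  have e1 : ((a - 1 : ℕ) : ℤ) = a - 1 := by omega
  rw [e1] at hx
  obtain ⟨hx1, hx2⟩ := hx
  have hQz : (0 : ℤ) < Q := by exact_mod_cast hQ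
  have k1 := mul_le_mul_of_nonneg_left hx1 hQz.le
  have k2 := mul_le_mul_of_nonneg_left hx2 hQz.le
  have k3 : (Q : ℤ) * (a : ℤ) + ((u % Q : ℕ) : ℤ) = u := by exact_mod_cast h1
  have k4 : (Q : ℤ) * (b : ℤ) + ((h % Q : ℕ) : ℤ) = h := by exact_mod_cast h4
  have k5 : ((u % Q : ℕ) : ℤ) < Q := by exact_mod_cast h2
  have k6 : ((h % Q : ℕ) : ℤ) < Q := by exact_mod_cast h5
  have k7 : (0 : ℤ) ≤ ((u % Q : ℕ) : ℤ) := Nat.cast_nonneg _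
  have k8 : (0 : ℤ) ≤ ((h % Q : ℕ) : ℤ) := Nat.cast_nonneg _
  have k9 : (r : ℤ) < Q := by exact_mod_cast hr
  have k10 : (0 : ℤ) ≤ r := Nat.cast_nonneg _
  have k11 : 2 * (Q : ℤ) ≤ h := by exact_mod_cast hh
  have k12 : (3 : ℤ) ≤ h := by exact_mod_cast h3
  push_cast at k1 k2
  have k13 : (u : ℤ) - h - 4 * Q ≤ Q * x := by linarith
  have k14 : (Q : ℤ) * x ≤ u + 3 * h + 5 * Q := by linarith
  have k15 : -3 ≤ (![0, 0, κ, -κ] : Fin 4 → ℤ) g ∧ (![0, 0, κ, -κ] : Fin 4 → ℤ) g ≤ 3 := by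
    rcases hκ with rfl | rfl <;> fin_cases g <;> simp
  unfold cen
  constructor <;> linarith [k15.1, k15.2]

open Classical in
/-- a residue class with many elements -/
theorem resid (F : Finset ℕ) (Q : ℕ) (hQ : 0 < Q) (b : ℝ) (hb : b ≤ F.card) :
    ∃ r < Q, b / Q ≤ ((F.filter (fun M => M % Q = r)).card : ℝ) := by
  by_contra hcon
  push Not at hcon
  have h1 : F.card = ∑ r ∈ range Q, (F.filter (fun M => M % Q = r)).card :=
    card_eq_sum_card_fiberwise (f := fun M => M % Q) (fun M _ => by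
      rw [mem_coe, mem_range]; exact Nat.mod_lt _ hQ)
  have h2 : (F.card : ℝ) < ∑ _r ∈ range Q, b / Q := by
    rw [h1]
    push_cast
    exact sum_lt_sum_of_nonempty ⟨0, mem_range.2 hQ⟩ fun r hr => hcon r (mem_range.1 hr)
  rw [sum_const, card_range, nsmul_eq_mul] at h2
  have h3 : (Q : ℝ) * (b / Q) = b := by
    have : (Q : ℝ) ≠ 0 := by exact_mod_cast hQ.ne'
    field_simp
  linarith

end Pool.Agent.T6.H3.TE
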