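import Mathlib
import Pool.Agent.T6.H3.TE.Win

/-! The window theorem: the core inequality. -/

set_option autoImplicit false

namespace Pool.Agent.T6.H3.TE

open Finset Filter Topology

open Classical in
theorem core (K : ℕ) (hK : 1 ≤ K) (δ : ℝ) (κ : ℤ) (hκ : κ = 0 ∨ κ = 3) (Q : ℕ)
    (hQ : Q = (4 * K).factorial) (ε c C κ₂ δ' : ℝ) (hε : 0 < ε) (hc : 0 < c) (hκ₂ : 0 < κ₂)
    (hδ' : 0 < δ') (s₀ h₁ u h N y : ℕ)
    (hconf : ∀ h u₀ : ℕ, h₁ ≤ h → ∀ B : Finset ℕ, B ⊆ Ioc u₀ (u₀ + h) → ε / 2 * h ≤ B.card →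
      ∃ A0 : Finset (Fin 4 × Fin K → ℤ),
      (∀ A ∈ A0, (∀ x, A x ∈ Icc ((u₀ : ℤ) - h) (u₀ + 3 * h)) ∧
        (∀ c : Fin 4 → Fin K, Rel B (fun g => A (g, c g))) ∧
        ∀ g i j, i ≠ j → A (g, i) ≠ A (g, j)) ∧
      κ₂ * (h : ℝ) ^ (4 * K) ≤ (A0.card : ℝ))
    (hlam : ∀ H : Fin 4 → Fin K → ℤ × ℤ,
      Function.Injective (fun x : Fin 4 × Fin K => H x.1 x.2) → (∀ g i, Ad2 2 N (H g i)) →
      (∀ p : ℕ, p.Prime → p ≤ 4 * K → ∃ r : ℤ, ∀ g i, ¬ (p : ℤ) ∣ (H g i).1 * r + (H g i).2) →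
      ∃ (s : ℕ) (S : Finset (Fin 4)) (σ : Fin 4 → Fin K), s ≤ s₀ ∧ 1 + 1 ≤ S.card ∧
        c * (N / (Real.log N) ^ (4 * K + 1)) ≤ ((R2 H δ s S σ N).card : ℝ))
    (hmom : ∀ Z : ℕ, ∑ n ∈ Ioc Z (Z + N), ((Nw y (20 * h) n : ℕ) : ℝ) ^ (10 * K) ≤ C * N)
    (hy : ∀ p : ℕ, p.Prime → p ≤ y → Real.log p ≤ δ * Real.log N)
    (hN : N = 8 * u / 9) (hu : 1000 * h ≤ u) (hh : 2 * Q + s₀ + 3 + Q * h₁ ≤ h)
    (hbad : ε * h < (Bad κ δ' u h).card) :
    ((h : ℝ) * (κ₂ * (h / Q) ^ (4 * K)) * (c * (N / (Real.log N) ^ (4 * K + 1)))) ^ 2 ≤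
      (s₀ + 1) ^ 2 * (1000 * δ' * u * (h / Real.log u) ^ 2 * (5 * (C * N))) := by
  have hQ0 : 0 < Q := by rw [hQ]; exact Nat.factorial_pos _
  have hQ2 : (2 : ℤ) ∣ Q := by
    have : 2 ∣ Q := by rw [hQ]; exact Nat.dvd_factorial (by norm_num) (by omega)
    exact_mod_cast this
  have h3 : 3 ≤ h := by omega
  have hQh : 2 * Q ≤ h := by omega
  have hs₀ : s₀ ≤ h := by omega
  have huN : N + 9 * h + 1 ≤ u := by omega
  have hQr : (0 : ℝ) < Q := by exact_mod_cast hQ0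
  -- a residue class
  obtain ⟨r, hrQ, hrc⟩ := resid (Bad κ δ' u h) Q hQ0 (ε * h) hbad.le
  obtain ⟨F, hF⟩ : ∃ F : Finset ℕ, F = (Bad κ δ' u h).filter (fun M => M % Q = r) := ⟨_, rfl⟩
  rw [← hF] at hrc
  have hFne : F.Nonempty := by
    rw [← card_pos]
    have h4 : (0 : ℝ) < F.card := lt_of_lt_of_le (by positivity) hrc
    exact_mod_cast h4
  have hFm : ∀ M ∈ F, M ∈ Bad κ δ' u h ∧ M % Q = r ∧ u < M ∧ M ≤ u + h ∧ Odd ((M : ℤ) + κ) := by
    intro M hM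
    rw [hF, mem_filter] at hM
    have hM' := hM.1
    unfold Bad at hM'
    rw [mem_filter, mem_Ioc] at hM'
    exact ⟨hM.1, hM.2, hM'.1.1, hM'.1.2, hM'.2.1⟩
  have hrodd : Odd ((r : ℤ) + κ) := by
    obtain ⟨M, hM⟩ := hFne
    obtain ⟨-, h4, -, -, h5⟩ := hFm M hM
    have h6 : (M : ℤ) = r + Q * ((M / Q : ℕ) : ℤ) := by
      have := Nat.mod_add_div M Q
      rw [h4] at this
      exact_mod_cast this.symm
    obtain ⟨q', hq'⟩ := hQ2
    obtain ⟨m', hm'⟩ := h5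
    refine ⟨m' - q' * ((M / Q : ℕ) : ℤ), ?_⟩
    rw [hq'] at h6
    linear_combination hm' - h6
  obtain ⟨B, hB⟩ : ∃ B : Finset ℕ, B = F.image (fun M => M / Q) := ⟨_, rfl⟩
  have hBc : B.card = F.card := by
    rw [hB]
    refine card_image_of_injOn ?_
    intro M hM M' hM' he
    have h4 := (hFm M (mem_coe.1 hM)).2.1
    have h5 := (hFm M' (mem_coe.1 hM')).2.1
    have h6 := Nat.mod_add_div M Q
    have h7 := Nat.mod_add_div M' Q
    simp only at he
    rw [h4, he] at h6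
    rw [h5] at h7
    exact h6.symm.trans h7
  have hBsub : B ⊆ Ioc (u / Q - 1) (u / Q - 1 + (h / Q + 2)) := by
    intro k hk
    rw [hB, mem_image] at hk
    obtain ⟨M, hM, rfl⟩ := hk
    obtain ⟨-, -, h4, h5, -⟩ := hFm M hM
    rw [mem_Ioc]
    have h6 : u / Q ≤ M / Q := Nat.div_le_div_right h4.le
    have h7 : 1 ≤ u / Q := (Nat.one_le_div_iff hQ0).2 (by omega)
    have h8 : M / Q ≤ u / Q + h / Q + 1 := by
      rw [← Nat.lt_succ_iff, Nat.div_lt_iff_lt_mul hQ0]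
      have k1 := Nat.div_add_mod u Q
      have k2 := Nat.mod_lt u hQ0
      have k3 := Nat.div_add_mod h Q
      have k4 := Nat.mod_lt h hQ0
      have k5 : (u / Q + h / Q + 1).succ * Q = Q * (u / Q) + Q * (h / Q) + 2 * Q := by
        rw [Nat.succ_eq_add_one]; ring
      rw [k5]
      omega
    constructor <;> omega
  have hhq : ((h / Q + 2 : ℕ) : ℝ) ≤ 2 * (h / Q) := by
    have k3 : ((h / Q : ℕ) : ℝ) ≤ (h : ℝ) / Q := Nat.cast_div_le
    have k4 : (2 : ℝ) ≤ h / Q := by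
      rw [le_div_iff₀ hQr]
      exact_mod_cast hQh
    push_cast
    linarith
  have hhq2 : (h : ℝ) / Q ≤ ((h / Q + 2 : ℕ) : ℝ) := by
    rw [div_le_iff₀ hQr]
    have k3 := Nat.div_add_mod h Q
    have k4 := Nat.mod_lt h hQ0
    have k5 : h ≤ (h / Q + 2) * Q := by
      have : (h / Q + 2) * Q = Q * (h / Q) + 2 * Q := by ring
      rw [this]
      omega
    exact_mod_cast k5
  obtain ⟨A0, hA0, hA0c⟩ := hconf (h / Q + 2) (u / Q - 1) (by
      have k1 : h₁ ≤ h / Q := by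
        rw [Nat.le_div_iff_mul_le hQ0, mul_comm]
        omega
      omega) B hBsub (by
      rw [hBc]
      refine le_trans ?_ hrc
      calc ε / 2 * ((h / Q + 2 : ℕ) : ℝ) ≤ ε / 2 * (2 * (h / Q)) :=
            mul_le_mul_of_nonneg_left hhq (by positivity)
        _ = ε * h / Q := by ring)
  -- the centres
  have hcen : ∀ A ∈ A0, ∀ x : Fin 4 × Fin K, (u : ℤ) - 4 * h ≤ cen r Q κ x.1 (A x) ∧
      cen r Q κ x.1 (A x) ≤ u + 8 * h := by
    intro A hA x
    have h4 := (hA0 A hA).1 x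
    rw [mem_Icc] at h4
    exact cen_bd u h Q r κ hκ hQ0 hrQ hQh h3 (by omega) _ h4 _
  have hNu1 : 9 * N ≤ 8 * u := by rw [hN]; exact Nat.mul_div_le _ _
  have hNu2 : 8 * u < 9 * N + 9 := by
    rw [hN]
    have := Nat.lt_mul_div_succ (8 * u) (show 0 < 9 by norm_num)
    omega
  have hAd : ∀ A ∈ A0, ∀ (g : Fin 4) (i : Fin K), Ad2 2 N (slo g, cen r Q κ g (A (g, i))) := by
    intro A hA g i
    obtain ⟨h4, h5⟩ := hcen A hA (g, i)
    simp only at h4 h5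
    refine ⟨slo_ne g, slo_le g, ?_, cop r Q κ hQ2 hrodd g _, fun t ht1 ht2 => ?_⟩
    · have h6 : 0 ≤ cen r Q κ g (A (g, i)) := by
        have : (1000 : ℤ) * h ≤ u := by exact_mod_cast hu
        linarith
      simp only
      rw [abs_of_nonneg h6]
      have k1 : (1000 : ℤ) * h ≤ u := by exact_mod_cast hu
      have k2 : (8 : ℤ) * u < 9 * N + 9 := by exact_mod_cast hNu2
      have k3 : (3 : ℤ) ≤ h := by exact_mod_cast h3
      linarith
    · simp only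
      have k1 : (1000 : ℝ) * h ≤ u := by exact_mod_cast hu
      have k2 : (9 : ℝ) * N ≤ 8 * u := by exact_mod_cast hNu1
      have k3 : (3 : ℝ) ≤ h := by exact_mod_cast h3
      have k4 : (u : ℝ) - 4 * h ≤ ((cen r Q κ g (A (g, i)) : ℤ) : ℝ) := by exact_mod_cast h4
      have k5 : (-2 : ℝ) ≤ ((slo g : ℤ) : ℝ) := by
        have := (abs_le.1 (slo_le g)).1
        exact_mod_cast this
      have k6 : (0 : ℝ) ≤ t := le_trans (by positivity) ht1
      have k7 : (-2 : ℝ) * t ≤ ((slo g : ℤ) : ℝ) * t := mul_le_mul_of_nonneg_right k5 k6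
      linarith
  -- the lower bound
  have hR : ∀ A ∈ A0, c * (N / (Real.log N) ^ (4 * K + 1)) ≤ ((RA K y N s₀ r Q κ A).card : ℝ) := by
    intro A hA
    obtain ⟨s, S, σ, hs, hS, h4⟩ := hlam (fun g i => (slo g, cen r Q κ g (A (g, i))))
      (by
        rintro ⟨g, i⟩ ⟨g', i'⟩ he
        simp only [Prod.mk.injEq] at he
        have h5 := slo_inj he.1
        subst h5
        have h6 := cen_inj (by exact_mod_cast hQ0.ne' : (Q : ℤ) ≠ 0) he.2
        by_contra hne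
        exact (hA0 A hA).2.2 g i i' (fun h => hne (by rw [h])) h6)
      (fun g i => hAd A hA g i)
      (by
        intro p hp hp4
        obtain ⟨t, ht⟩ := loc r Q κ hκ hrodd p hp (by
          have : p ∣ Q := by rw [hQ]; exact Nat.dvd_factorial hp.pos hp4
          exact_mod_cast this)
        exact ⟨t, fun g i => ht g _⟩)
    refine h4.trans ?_
    rw [Nat.cast_le]
    exact card_le_card (sub_RA K y N s₀ r Q κ δ A s hs S hS σ hy)
  -- double counting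
  obtain ⟨G, hG⟩ : ∃ G : ℕ → Finset ((Fin 4 × Fin K → ℤ) × ℕ), G = fun m =>
      (A0 ×ˢ range h).filter (fun q => m + q.2 ∈ RA K y N s₀ r Q κ q.1) := ⟨_, rfl⟩
  have hRA : ∀ (A : Fin 4 × Fin K → ℤ), ∀ n ∈ RA K y N s₀ r Q κ A, N ≤ 16 * n ∧ 2 * n ≤ N := by
    intro A n hn
    unfold RA at hn
    rw [mem_filter] at hn
    exact ⟨hn.2.1, hn.2.2.1⟩
  have hdc : h * ∑ A ∈ A0, (RA K y N s₀ r Q κ A).card ≤ ∑ m ∈ Icc 2 (N / 2), (G m).card := by
    have := dcount A0 (RA K y N s₀ r Q κ) h (Icc 2 (N / 2)) (by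
      intro A _ n hn τ hτ
      obtain ⟨h4, h5⟩ := hRA A n hn
      rw [mem_Icc]
      constructor
      · omega
      · constructor <;> omega)
    refine this.trans (le_of_eq ?_)
    rw [hG]
  obtain ⟨E, hE⟩ : ∃ E : Finset ℕ, E = (Icc 2 (N / 2)).filter (fun m => (G m).Nonempty) := ⟨_, rfl⟩
  have hEs : E ⊆ Icc 2 (N / 2) := by rw [hE]; exact filter_subset _ _
  have hsumE : ∑ m ∈ Icc 2 (N / 2), (G m).card = ∑ m ∈ E, (G m).card := by
    symm
    refine sum_subset hEs fun m hm hm' => ?_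
    rw [hE, mem_filter] at hm'
    rw [card_eq_zero, ← not_nonempty_iff_eq_empty]
    exact fun h => hm' ⟨hm, h⟩
  have hFF : ∀ m ∈ E, ((G m).card : ℝ) ≤ (s₀ + 1) * FF K y (20 * h) u h m := by
    intro m hm
    have h4 := mem_Icc.1 (hEs hm)
    have h5 := stage1 K y N s₀ u h huN (by omega) hs₀ r Q κ (by exact_mod_cast hQ0.ne') A0 hcen m
      h4.1 (by omega)
    refine le_trans (le_of_eq ?_) h5
    rw [hG]
  have hlow : (h : ℝ) * (κ₂ * (h / Q) ^ (4 * K)) * (c * (N / (Real.log N) ^ (4 * K + 1))) ≤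
      (s₀ + 1) * ∑ m ∈ E, FF K y (20 * h) u h m := by
    have h4 : (A0.card : ℝ) * (c * (N / (Real.log N) ^ (4 * K + 1))) ≤
        ∑ A ∈ A0, ((RA K y N s₀ r Q κ A).card : ℝ) := by
      rw [← nsmul_eq_mul]
      exact card_nsmul_le_sum _ _ _ hR
    have h5 : κ₂ * ((h : ℝ) / Q) ^ (4 * K) ≤ A0.card := by
      refine le_trans (mul_le_mul_of_nonneg_left ?_ hκ₂.le) hA0c
      exact pow_le_pow_left₀ (by positivity) hhq2 _
    have h6 : (0 : ℝ) ≤ c * (N / (Real.log N) ^ (4 * K + 1)) := by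
      have := Real.log_natCast_nonneg N
      positivity
    have h7 : (h : ℝ) * ∑ A ∈ A0, ((RA K y N s₀ r Q κ A).card : ℝ) ≤ ∑ m ∈ E, ((G m).card : ℝ) := by
      rw [hsumE] at hdc
      exact_mod_cast hdc
    rw [mul_sum]
    refine le_trans ?_ (h7.trans (sum_le_sum hFF))
    rw [mul_assoc]
    refine mul_le_mul_of_nonneg_left ?_ (Nat.cast_nonneg _)
    exact (mul_le_mul_of_nonneg_right h5 h6).trans h4
  -- the upper bound for the exceptional places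
  have hEc := upE κ δ' hδ' u h N huN (by omega) E hEs (by
    intro m hm
    rw [hE, mem_filter, mem_Icc] at hm
    obtain ⟨⟨hm2, hm3⟩, ⟨⟨A, τ⟩, hq⟩⟩ := hm
    rw [hG, mem_filter, mem_product, mem_range] at hq
    obtain ⟨⟨hA, hτ⟩, hR⟩ := hq
    simp only at hA hτ hR
    unfold RA at hR
    rw [mem_filter] at hR
    obtain ⟨-, -, hR2, -, s, hs, -, g, g', i, i', hgg, hp1, hp2⟩ := hR
    obtain ⟨cc, hcc⟩ : ∃ cc : Fin 4 → Fin K, cc = fun k => if k = g then i else i' := ⟨_, rfl⟩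
    have hcg : cc g = i := by rw [hcc]; simp
    have hcg' : cc g' = i' := by rw [hcc]; simp [hgg.ne']
    have hrel := (hA0 A hA).2.1 cc
    obtain ⟨k, hk, hpair⟩ := pair r Q κ B (fun g => A (g, cc g)) hrel (((m + τ : ℕ) : ℤ) + s) g g' hgg
      (by simp only [hcg]; exact hp1) (by simp only [hcg']; exact hp2)
    rw [hB, mem_image] at hk
    obtain ⟨M, hM, rfl⟩ := hk
    obtain ⟨hMb, hMr, hMu, hMh, -⟩ := hFm M hM
    have hMeq : (M : ℤ) = r + Q * ((M / Q : ℕ) : ℤ) := by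
      have := Nat.mod_add_div M Q
      rw [hMr] at this
      exact_mod_cast this.symm
    simp only [hcg] at hpair
    obtain ⟨z, hz⟩ : ∃ z : ℤ, z = slo g * (((m + τ : ℕ) : ℤ) + s) + cen r Q κ g (A (g, i)) := ⟨_, rfl⟩
    rw [← hz] at hpair hp1
    have hw := win_pos u h N m (τ + s) huN (by omega) hm2 (by omega) (by omega) _
      (hcen A hA (g, i)) g
    have e1 : slo g * ((m : ℤ) + ((τ + s : ℕ) : ℤ)) + cen r Q κ g (A (g, i)) = z := by
      rw [hz]; push_cast; ring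
    simp only at hw
    rw [e1] at hw
    have e2 := toNat_prime hp1
    have hpos : (pos u h m g.castSucc : ℤ) ≤ u + N := by
      have h4 : pos u h m g.castSucc ≤ u + N := by
        fin_cases g <;> simp [pos] <;> omega
      exact_mod_cast h4
    have hzM : z ≤ 2 * M := by
      have k1 : (1000 : ℤ) * h ≤ u := by exact_mod_cast hu
      have k2 : (9 : ℤ) * N ≤ 8 * u := by exact_mod_cast hNu1
      have k3 : (u : ℤ) < M := by exact_mod_cast hMu
      linarith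
    obtain ⟨q, hq, hsol⟩ := hpair M hMeq hzM
    refine ⟨M, hMb, q, hq, z.toNat, hsol, g.castSucc, ?_, ?_⟩
    · have := hw.1
      rw [← e2] at this
      exact_mod_cast this
    · have := hw.2
      rw [← e2] at this
      exact_mod_cast this)
  have hst2 := stage2 K hK y (20 * h) u h N huN C hmom E hEs
  have hS0 : 0 ≤ ∑ m ∈ E, FF K y (20 * h) u h m := sum_nonneg fun m _ => FF_nonneg _ _ _ _ _ _
  have hC0 : 0 ≤ C * N := by
    refine le_trans ?_ (hmom 0)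
    exact sum_nonneg fun _ _ => by positivity
  have hlow0 : (0 : ℝ) ≤ (h : ℝ) * (κ₂ * (h / Q) ^ (4 * K)) * (c * (N / (Real.log N) ^ (4 * K + 1))) := by
    have := Real.log_natCast_nonneg N
    positivity
  calc ((h : ℝ) * (κ₂ * (h / Q) ^ (4 * K)) * (c * (N / (Real.log N) ^ (4 * K + 1)))) ^ 2 ≤
      ((s₀ + 1) * ∑ m ∈ E, FF K y (20 * h) u h m) ^ 2 := pow_le_pow_left₀ hlow0 hlow 2
    _ = (s₀ + 1) ^ 2 * (∑ m ∈ E, FF K y (20 * h) u h m) ^ 2 := by ring
    _ ≤ (s₀ + 1) ^ 2 * (E.card * (5 * (C * N))) := mul_le_mul_of_nonneg_left hst2 (by positivity)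
    _ ≤ (s₀ + 1) ^ 2 * (1000 * δ' * u * (h / Real.log u) ^ 2 * (5 * (C * N))) := by
        apply mul_le_mul_of_nonneg_left _ (by positivity)
        exact mul_le_mul_of_nonneg_right hEc (by positivity)

end Pool.Agent.T6.H3.TE
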