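import Mathlib
import Pool.Agent.T6.H3.TE.Win2

/-! The window theorem. -/

set_option autoImplicit false

namespace Pool.Agent.T6.H3.TE

open Finset Filter Topology

theorem win (K : ℕ) (hK : 1 ≤ K) (δ : ℝ) (hδ : 0 < δ) (hL : LamS 4 1 K δ) (hM : MomS) (κ : ℤ)
    (hκ : κ = 0 ∨ κ = 3) (ε l₁ l₂ : ℝ) (hε : 0 < ε) (hl₁ : 0 < l₁) (hl₂ : 0 < l₂) :
    ∃ δ' : ℝ, 0 < δ' ∧ ∃ U : ℕ, ∀ u : ℕ, U ≤ u → ∀ h : ℕ, l₁ * Real.log u ≤ h →
      (h : ℝ) ≤ l₂ * Real.log u → ((Bad κ δ' u h).card : ℝ) ≤ ε * h := by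
  obtain ⟨s₀, c, hc, hlam⟩ := hL 2
  obtain ⟨N1, hN1⟩ := eventually_atTop.1 hlam
  obtain ⟨θ, C, hθ0, hθδ, hC, hmom⟩ := hM (10 * K - 1) (40 * l₂) δ (by positivity) hδ
  obtain ⟨N2, hN2⟩ := eventually_atTop.1 hmom
  obtain ⟨κ₂, h₁, hκ₂, hconf⟩ := conf (ε / 2) (by positivity) K hK
  obtain ⟨Q, hQ⟩ : ∃ Q : ℕ, Q = (4 * K).factorial := ⟨_, rfl⟩
  have hQ0 : 0 < Q := by rw [hQ]; exact Nat.factorial_pos _
  have hQr : (0 : ℝ) < Q := by exact_mod_cast hQ0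
  obtain ⟨c₆, hc₆⟩ : ∃ c₆ : ℝ, c₆ = κ₂ * (1 / Q) ^ (4 * K) * c * l₁ ^ (4 * K + 1) := ⟨_, rfl⟩
  have hc₆0 : 0 < c₆ := by rw [hc₆]; positivity
  obtain ⟨δ', hδ'⟩ : ∃ δ' : ℝ, δ' = c₆ ^ 2 / (20000 * C * (s₀ + 1) ^ 2 * l₂ ^ 2) := ⟨_, rfl⟩
  have hδ'0 : 0 < δ' := by rw [hδ']; positivity
  refine ⟨δ', hδ'0, ?_⟩
  have ev1 : ∀ᶠ u : ℕ in atTop, 1000 * (l₂ * Real.log u) ≤ u := by
    have h1 := (Real.isLittleO_log_id_atTop.bound (show (0 : ℝ) < 1 / (1000 * l₂) by positivity))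
    have h2 := tendsto_natCast_atTop_atTop.eventually h1
    filter_upwards [h2, eventually_ge_atTop 1] with u hu hu1
    rw [Real.norm_of_nonneg (Real.log_natCast_nonneg u), id, Real.norm_of_nonneg (Nat.cast_nonneg _)] at hu
    rw [div_mul_eq_mul_div, one_mul, le_div_iff₀ (by positivity)] at hu
    linarith
  have ev2 : ∀ᶠ u : ℕ in atTop, ((2 * Q + s₀ + 3 + Q * h₁ : ℕ) : ℝ) ≤ l₁ * Real.log u :=
    ((Real.tendsto_log_atTop.comp tendsto_natCast_atTop_atTop).const_mul_atTop hl₁).eventually_ge_atTop _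
  have ev := (ev1.and (ev2.and (eventually_ge_atTop (2 * (N1 + N2 + 16)))))
  obtain ⟨U, hU⟩ := eventually_atTop.1 ev
  refine ⟨U, fun u hu h hh1 hh2 => ?_⟩
  obtain ⟨hu1, hu2, hu3⟩ := hU u hu
  by_contra hbad
  push Not at hbad
  obtain ⟨N, hN⟩ : ∃ N : ℕ, N = 8 * u / 9 := ⟨_, rfl⟩
  have hNu1 : 9 * N ≤ 8 * u := by rw [hN]; exact Nat.mul_div_le _ _
  have hNu2 : 8 * u < 9 * N + 9 := by
    rw [hN]
    have := Nat.lt_mul_div_succ (8 * u) (show 0 < 9 by norm_num)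
    omega
  have hNu3 : u ≤ 2 * N := by omega
  have hNN : N1 ≤ N ∧ N2 ≤ N ∧ 4 ≤ N := by omega
  have hNr : (4 : ℝ) ≤ N := by exact_mod_cast hNN.2.2
  have hur : (4 : ℝ) ≤ u := by
    have : (N : ℝ) ≤ u := by exact_mod_cast (by omega : N ≤ u)
    linarith
  have hL0 : 0 < Real.log N := Real.log_pos (by linarith)
  have hLu : 0 < Real.log u := Real.log_pos (by linarith)
  have hLNu : Real.log N ≤ Real.log u := Real.log_le_log (by linarith) (by exact_mod_cast (by omega : N ≤ u))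
  have hLu2 : Real.log u ≤ 2 * Real.log N := by
    have h1 : (u : ℝ) ≤ (N : ℝ) ^ 2 := by
      have : (u : ℝ) ≤ 2 * N := by exact_mod_cast hNu3
      nlinarith
    have h2 := Real.log_le_log (by linarith) h1
    rw [Real.log_pow] at h2
    exact_mod_cast h2
  have hhH : 2 * Q + s₀ + 3 + Q * h₁ ≤ h := by exact_mod_cast hu2.trans hh1
  have hhu : 1000 * h ≤ u := by
    have : (1000 : ℝ) * h ≤ u := by linarith
    exact_mod_cast this
  have hK1 : 10 * K - 1 + 1 = 10 * K := by omega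
  have hcore := core K hK δ κ hκ Q hQ ε c C κ₂ δ' hε hc hκ₂ hδ'0 s₀ h₁ u h N ⌊(N : ℝ) ^ θ⌋₊ hconf
    (hN1 N hNN.1) (by
      intro Z
      have := hN2 N hNN.2.1 (20 * h) (by
        push_cast
        have : l₂ * Real.log u ≤ l₂ * (2 * Real.log N) := mul_le_mul_of_nonneg_left hLu2 hl₂.le
        linarith) Z
      rw [hK1] at this
      exact this) (by
      intro p hp hpy
      have h1 : (p : ℝ) ≤ (N : ℝ) ^ θ := (Nat.cast_le.2 hpy).trans (Nat.floor_le (by positivity))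
      have h2 := Real.log_le_log (by exact_mod_cast hp.pos) h1
      rw [Real.log_rpow (by linarith)] at h2
      exact h2.trans (mul_le_mul_of_nonneg_right hθδ hL0.le)) hN hhu hhH hbad
  -- comparison
  have hh0 : (0 : ℝ) ≤ h := Nat.cast_nonneg _
  have hx : l₁ ≤ (h : ℝ) / Real.log N := by
    rw [le_div_iff₀ hL0]
    exact (mul_le_mul_of_nonneg_left hLNu hl₁.le).trans hh1
  have h1 : c₆ * N ≤ (h : ℝ) * (κ₂ * (h / Q) ^ (4 * K)) * (c * (N / (Real.log N) ^ (4 * K + 1))) := by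
    have e1 : (h : ℝ) * (κ₂ * (h / Q) ^ (4 * K)) * (c * (N / (Real.log N) ^ (4 * K + 1))) =
        κ₂ * (1 / Q) ^ (4 * K) * c * (h / Real.log N) ^ (4 * K + 1) * N := by
      rw [div_pow, div_pow, div_pow, one_pow, pow_succ (h : ℝ)]
      field_simp
    rw [e1, hc₆]
    have := pow_le_pow_left₀ hl₁.le hx (4 * K + 1)
    gcongr
  have h2 : (h / Real.log u) ^ 2 ≤ l₂ ^ 2 := by
    apply pow_le_pow_left₀ (by positivity)
    rw [div_le_iff₀ hLu]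
    exact hh2
  have hNpos : (0 : ℝ) < N := by linarith
  have h3 : (c₆ * N) ^ 2 ≤ c₆ ^ 2 * (u * N / 4) := by
    calc (c₆ * N) ^ 2 ≤ ((h : ℝ) * (κ₂ * (h / Q) ^ (4 * K)) * (c * (N / (Real.log N) ^ (4 * K + 1)))) ^ 2 :=
          pow_le_pow_left₀ (by positivity) h1 2
      _ ≤ _ := hcore
      _ ≤ (s₀ + 1) ^ 2 * (1000 * δ' * u * l₂ ^ 2 * (5 * (C * N))) := by
          gcongr
      _ = c₆ ^ 2 * (u * N / 4) := by
          rw [hδ']
          field_simp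
          ring
  rw [mul_pow] at h3
  have h4 := le_of_mul_le_mul_left h3 (by positivity)
  have h5 : (u : ℝ) ≤ 2 * N := by exact_mod_cast hNu3
  nlinarith

end Pool.Agent.T6.H3.TE
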