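import Mathlib
import Pool.Agent.T6.H3.TE.Win3

/-! All the windows. -/

set_option autoImplicit false

namespace Pool.Agent.T6.H3.TE

open Finset Filter Topology

theorem Bad_anti (κ : ℤ) (δ₁ δ₂ : ℝ) (h12 : δ₁ ≤ δ₂) (u h : ℕ) : Bad κ δ₁ u h ⊆ Bad κ δ₂ u h := by
  intro M hM
  unfold Bad at hM ⊢
  rw [mem_filter] at hM ⊢
  refine ⟨hM.1, hM.2.1, fun q hq => (hM.2.2 q hq).trans_le ?_⟩
  apply mul_le_mul_of_nonneg_right h12
  positivity

/-- the corrections -/
def kap (M : ℕ) : ℤ := if Odd M then 0 else 3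

open Classical in
/-- the integers with few solutions -/
noncomputable def NG (δ' : ℝ) (u h : ℕ) : Finset ℕ :=
  (Ioc u (u + h)).filter (fun M : ℕ => ∀ q ∈ EQ (kap M), ((sol q M).card : ℝ) < δ' * (M / Real.log M ^ 2))

theorem NG_sub (δ' : ℝ) (u h : ℕ) : NG δ' u h ⊆ Bad 0 δ' u h ∪ Bad 3 δ' u h := by
  classical
  intro M hM
  unfold NG at hM
  rw [mem_filter] at hM
  rw [mem_union]
  unfold kap at hM
  by_cases ho : Odd M
  · left
    rw [if_pos ho] at hM
    unfold Bad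
    rw [mem_filter]
    refine ⟨hM.1, ?_, hM.2⟩
    rw [add_zero]
    exact_mod_cast ho
  · right
    rw [if_neg ho] at hM
    unfold Bad
    rw [mem_filter]
    refine ⟨hM.1, ?_, hM.2⟩
    rw [Nat.not_odd_iff_even] at ho
    obtain ⟨m, hm⟩ := ho
    exact ⟨m + 1, by rw [hm]; push_cast; ring⟩

theorem fin_of (K : ℕ) (hK : 1 ≤ K) (δ : ℝ) (hδ : 0 < δ) (hL : LamS 4 1 K δ) (hM : MomS)
    (ε l : ℝ) (hε : 0 < ε) (hl : 0 < l) :
    ∃ δ' : ℝ, 0 < δ' ∧ ∃ N₀ : ℕ, ∀ N : ℕ, N₀ ≤ N → ∀ H : ℕ, l * Real.log N ≤ H → H ≤ N →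
      ((NG δ' N H).card : ℝ) ≤ ε * H := by
  obtain ⟨δ₀, hδ₀, U₀, h0⟩ := win K hK δ hδ hL hM 0 (Or.inl rfl) (ε / 4) (l / 4) l (by positivity)
    (by positivity) hl
  obtain ⟨δ₃, hδ₃, U₃, h3⟩ := win K hK δ hδ hL hM 3 (Or.inr rfl) (ε / 4) (l / 4) l (by positivity)
    (by positivity) hl
  obtain ⟨δ', hδ'⟩ : ∃ δ' : ℝ, δ' = min δ₀ δ₃ := ⟨_, rfl⟩
  have hδ'0 : 0 < δ' := by rw [hδ']; exact lt_min hδ₀ hδ₃
  have ev1 : ∀ᶠ N : ℕ in atTop, 2 ≤ l * Real.log N :=
    ((Real.tendsto_log_atTop.comp tendsto_natCast_atTop_atTop).const_mul_atTop hl).eventually_ge_atTop _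
  obtain ⟨U₁, hU₁⟩ := eventually_atTop.1 ev1
  refine ⟨δ', hδ'0, U₀ + U₃ + U₁ + 2, fun N hN H hH1 hH2 => ?_⟩
  have hl2 := hU₁ N (by omega)
  have hN2 : (2 : ℝ) ≤ N := by exact_mod_cast (by omega : 2 ≤ N)
  have hlN : 0 < Real.log N := Real.log_pos (by linarith)
  obtain ⟨h, hh⟩ : ∃ h : ℕ, h = ⌊l * Real.log N⌋₊ := ⟨_, rfl⟩
  have hh1 : (h : ℝ) ≤ l * Real.log N := by rw [hh]; exact Nat.floor_le (by positivity)
  have hh2 : l * Real.log N < h + 1 := by rw [hh]; exact Nat.lt_floor_add_one _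
  have hh3 : 1 ≤ h := by
    have : (0 : ℝ) < h := by linarith
    exact_mod_cast this
  have hh4 : l * Real.log N / 2 ≤ h := by linarith
  have hhH : h ≤ H := by
    have : (h : ℝ) ≤ H := hh1.trans hH1
    exact_mod_cast this
  obtain ⟨J, hJ⟩ : ∃ J : ℕ, J = H / h + 1 := ⟨_, rfl⟩
  have hJh : J * h ≤ H + h := by
    rw [hJ, add_mul, one_mul]
    exact Nat.add_le_add_right (Nat.div_mul_le_self _ _) _
  have hJh2 : H < J * h := by
    rw [hJ, mul_comm]
    exact Nat.lt_mul_div_succ H (by omega)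
  have hcov : NG δ' N H ⊆ (range J).biUnion (fun j => NG δ' (N + j * h) h) := by
    intro M hM
    unfold NG at hM
    rw [mem_filter, mem_Ioc] at hM
    obtain ⟨⟨h4, h5⟩, h6⟩ := hM
    rw [mem_biUnion]
    refine ⟨(M - N - 1) / h, ?_, ?_⟩
    · rw [mem_range, Nat.div_lt_iff_lt_mul (by omega)]
      omega
    · unfold NG
      rw [mem_filter, mem_Ioc]
      have k1 := Nat.div_add_mod (M - N - 1) h
      have k2 := Nat.mod_lt (M - N - 1) (show 0 < h by omega)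
      rw [mul_comm] at k1
      exact ⟨by constructor <;> omega, h6⟩
  have hone : ∀ j ∈ range J, ((NG δ' (N + j * h) h).card : ℝ) ≤ ε / 2 * h := by
    intro j hj
    rw [mem_range] at hj
    have k1 : j * h ≤ H := by
      have : j ≤ H / h := by omega
      exact (Nat.mul_le_mul_right h this).trans (Nat.div_mul_le_self _ _)
    obtain ⟨u, hu⟩ : ∃ u : ℕ, u = N + j * h := ⟨_, rfl⟩
    rw [← hu]
    have hu2 : u ≤ 2 * N := by omega
    have hNu : N ≤ u := by omega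
    have hNur : (N : ℝ) ≤ u := by exact_mod_cast hNu
    have hlu : Real.log u ≤ 2 * Real.log N := by
      have h4 : (u : ℝ) ≤ (N : ℝ) ^ 2 := by
        have : (u : ℝ) ≤ 2 * N := by exact_mod_cast hu2
        nlinarith
      have h5 := Real.log_le_log (by linarith) h4
      rw [Real.log_pow] at h5
      exact_mod_cast h5
    have hlu2 : Real.log N ≤ Real.log u := Real.log_le_log (by linarith) hNur
    have a1 : l / 4 * Real.log u ≤ h := by
      have : l / 4 * Real.log u ≤ l / 4 * (2 * Real.log N) := mul_le_mul_of_nonneg_left hlu (by positivity)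
      linarith
    have a2 : (h : ℝ) ≤ l * Real.log u := hh1.trans (mul_le_mul_of_nonneg_left hlu2 hl.le)
    have b0 := h0 u (by omega) h a1 a2
    have b3 := h3 u (by omega) h a1 a2
    have c0 : ((Bad 0 δ' u h).card : ℝ) ≤ (Bad 0 δ₀ u h).card := by
      exact_mod_cast card_le_card (Bad_anti 0 δ' δ₀ (by rw [hδ']; exact min_le_left _ _) u h)
    have c3 : ((Bad 3 δ' u h).card : ℝ) ≤ (Bad 3 δ₃ u h).card := by
      exact_mod_cast card_le_card (Bad_anti 3 δ' δ₃ (by rw [hδ']; exact min_le_right _ _) u h)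
    have d : ((NG δ' u h).card : ℝ) ≤ (Bad 0 δ' u h).card + (Bad 3 δ' u h).card := by
      exact_mod_cast (card_le_card (NG_sub δ' u h)).trans (card_union_le _ _)
    linarith
  have e1 : ((NG δ' N H).card : ℝ) ≤ ∑ j ∈ range J, ((NG δ' (N + j * h) h).card : ℝ) := by
    exact_mod_cast (card_le_card hcov).trans card_biUnion_le
  refine e1.trans ((sum_le_sum hone).trans ?_)
  rw [sum_const, card_range, nsmul_eq_mul]
  have e2 : (J : ℝ) * h ≤ H + h := by exact_mod_cast hJh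
  have e3 : (h : ℝ) ≤ H := by exact_mod_cast hhH
  calc (J : ℝ) * (ε / 2 * h) = ε / 2 * (J * h) := by ring
    _ ≤ ε / 2 * (2 * H) := mul_le_mul_of_nonneg_left (by linarith) (by positivity)
    _ = ε * H := by ring

end Pool.Agent.T6.H3.TE
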