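import Mathlib
import Pool.Agent.R306.One.Lin
import Pool.Agent.H256R2.SC.G3
import Pool.Agent.T6.H3.TE.Stm

/-! Moments of the number of the integers without small prime factors in short intervals. -/

set_option autoImplicit false

namespace Pool.Agent.T6.H3.TE

open Finset Filter Topology
open Pool.Agent.R306.One
open Pool.Agent.Y862.SQ (pr V1)

theorem V1_log : ∃ C : ℝ, 0 < C ∧ ∀ y : ℕ, 3 ≤ y → V1 y ≤ C / Real.log y := by
  obtain ⟨C, -, hC⟩ := Pool.Agent.H256R2.SC.G3.mertens_prod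
  refine ⟨Real.exp C, Real.exp_pos _, fun y hy => ?_⟩
  have h := hC y hy ∅ (by simp)
  rw [sdiff_empty, prod_empty, mul_one] at h
  unfold V1 pr
  exact h

theorem Nl_mono {y T T' n : ℕ} (h : T ≤ T') : Nl y T n ≤ Nl y T' n := by
  unfold Nl
  apply card_le_card
  intro m hm
  rw [mem_filter, mem_Icc] at hm ⊢
  exact ⟨⟨hm.1.1, hm.1.2.trans h⟩, hm.2⟩

theorem pow_le_choose' (r x : ℕ) : (x : ℝ) ^ r ≤ (2 * r) ^ r + 2 ^ r * r.factorial * x.choose r := by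
  rcases le_or_gt x (2 * r) with h | h
  · have h1 : (x : ℝ) ≤ 2 * r := by exact_mod_cast h
    have h2 : (x : ℝ) ^ r ≤ (2 * r) ^ r := pow_le_pow_left₀ (Nat.cast_nonneg _) h1 r
    have h3 : (0 : ℝ) ≤ 2 ^ r * r.factorial * x.choose r := by positivity
    linarith
  · have h1 := Nat.pow_le_choose (α := ℝ) r x
    rw [div_le_iff₀ (by positivity)] at h1
    have h2 : (x : ℝ) ≤ 2 * ((x + 1 - r : ℕ) : ℝ) := by
      have : x ≤ 2 * (x + 1 - r) := by omega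
      exact_mod_cast this
    have h3 : (x : ℝ) ^ r ≤ (2 * ((x + 1 - r : ℕ) : ℝ)) ^ r :=
      pow_le_pow_left₀ (Nat.cast_nonneg _) h2 r
    rw [mul_pow] at h3
    have h4 : (2 : ℝ) ^ r * ((x + 1 - r : ℕ) : ℝ) ^ r ≤ 2 ^ r * (x.choose r * r.factorial) :=
      mul_le_mul_of_nonneg_left h1 (by positivity)
    have h5 : (0 : ℝ) ≤ (2 * (r : ℝ)) ^ r := by positivity
    calc (x : ℝ) ^ r ≤ 2 ^ r * (x.choose r * r.factorial) := h3.trans h4
      _ ≤ (2 * r) ^ r + 2 ^ r * r.factorial * x.choose r := by nlinarith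

theorem mom (k : ℕ) (Λ δ : ℝ) (hΛ : 0 < Λ) (hδ : 0 < δ) : ∃ (θ C : ℝ), 0 < θ ∧ θ ≤ δ ∧ 0 < C ∧
    ∀ᶠ N : ℕ in atTop, ∀ T : ℕ, (T : ℝ) ≤ Λ * Real.log N → ∀ Z : ℕ,
    ∑ n ∈ Ioc Z (Z + N), ((Nl ⌊(N : ℝ) ^ θ⌋₊ T n : ℕ) : ℝ) ^ (k + 1) ≤ C * N := by
  obtain ⟨K0, y0, T0, hM⟩ := t_MOML k 1 one_pos
  obtain ⟨C1, hC1, hV⟩ := V1_log
  obtain ⟨θ, hθ⟩ : ∃ θ : ℝ, θ = min δ (1 / (K0 + 1)) := ⟨_, rfl⟩
  have hθ0 : 0 < θ := by rw [hθ]; exact lt_min hδ (by positivity)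
  have hθ1 : θ ≤ 1 / (K0 + 1) := by rw [hθ]; exact min_le_right _ _
  obtain ⟨C2, hC2⟩ : ∃ C2 : ℝ, C2 = 4 * Λ * C1 / θ := ⟨_, rfl⟩
  have hC20 : 0 < C2 := by rw [hC2]; positivity
  refine ⟨θ, (2 * (k + 1 : ℕ)) ^ (k + 1) + 2 ^ (k + 1) * (k + 1).factorial * (2 * (C2 ^ (k + 1) / (k + 1).factorial) + 1),
    hθ0, by rw [hθ]; exact min_le_left _ _, by positivity, ?_⟩
  have hN1 : ∀ᶠ N : ℕ in atTop, (max (y0 : ℝ) 3 + 1) ≤ (N : ℝ) ^ θ :=
    ((tendsto_rpow_atTop hθ0).comp tendsto_natCast_atTop_atTop).eventually_ge_atTop _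
  have hN2 : ∀ᶠ N : ℕ in atTop, max (T0 : ℝ) 1 ≤ Λ * Real.log N :=
    ((Real.tendsto_log_atTop.comp tendsto_natCast_atTop_atTop).const_mul_atTop hΛ).eventually_ge_atTop _
  have hN3 : ∀ᶠ N : ℕ in atTop, 2 * Real.log 2 / θ ≤ Real.log N :=
    (Real.tendsto_log_atTop.comp tendsto_natCast_atTop_atTop).eventually_ge_atTop _
  have hN4 : ∀ᶠ N : ℕ in atTop, (2 * Λ * Real.log N) ^ (k + 1) ≤ √(N : ℝ) := by
    have h1 := (isLittleO_log_rpow_rpow_atTop (k + 1 : ℕ) (show (0 : ℝ) < 1 / 2 by norm_num)).bound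
      (show (0 : ℝ) < 1 / ((2 * Λ) ^ (k + 1)) by positivity)
    have h2 := tendsto_natCast_atTop_atTop.eventually h1
    filter_upwards [h2, eventually_ge_atTop 1] with N hN hN1
    have hl : 0 ≤ Real.log N := Real.log_natCast_nonneg N
    rw [Real.norm_of_nonneg (by positivity), Real.norm_of_nonneg (by positivity),
      ← Real.sqrt_eq_rpow, Real.rpow_natCast] at hN
    rw [mul_pow]
    calc (2 * Λ) ^ (k + 1) * Real.log N ^ (k + 1) ≤
        (2 * Λ) ^ (k + 1) * (1 / ((2 * Λ) ^ (k + 1)) * √(N : ℝ)) :=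
          mul_le_mul_of_nonneg_left hN (by positivity)
      _ = √(N : ℝ) := by field_simp
  filter_upwards [hN1, hN2, hN3, hN4, eventually_ge_atTop 3] with N h1 h2 h3 h4 h5 T hT Z
  have hNr : (3 : ℝ) ≤ N := by exact_mod_cast h5
  have hlN : 0 < Real.log N := Real.log_pos (by linarith)
  obtain ⟨y, hy⟩ : ∃ y : ℕ, y = ⌊(N : ℝ) ^ θ⌋₊ := ⟨_, rfl⟩
  rw [← hy]
  have hyle : (y : ℝ) ≤ (N : ℝ) ^ θ := by
    rw [hy]; exact Nat.floor_le (by positivity)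
  have hylt : (N : ℝ) ^ θ < y + 1 := by rw [hy]; exact Nat.lt_floor_add_one _
  have hy0 : y0 ≤ y := by
    have h6 : (y0 : ℝ) < y := by linarith [le_max_left (y0 : ℝ) 3, lt_of_le_of_lt h1 hylt]
    exact_mod_cast h6.le
  have hy3 : 3 ≤ y := by
    have h6 : (3 : ℝ) < y := by linarith [le_max_right (y0 : ℝ) 3, lt_of_le_of_lt h1 hylt]
    exact_mod_cast h6.le
  have hyK : y ^ K0 ≤ N := by
    have h6 : (y : ℝ) ^ K0 ≤ N := by
      calc (y : ℝ) ^ K0 ≤ ((N : ℝ) ^ θ) ^ K0 := pow_le_pow_left₀ (Nat.cast_nonneg _) hyle _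
        _ = (N : ℝ) ^ (θ * K0) := by rw [← Real.rpow_natCast, ← Real.rpow_mul (by linarith)]
        _ ≤ (N : ℝ) ^ (1 : ℝ) := by
            apply Real.rpow_le_rpow_of_exponent_le (by linarith)
            have h7 : θ * (K0 + 1) ≤ 1 := by
              rw [le_div_iff₀ (by positivity)] at hθ1
              exact hθ1
            nlinarith
        _ = N := Real.rpow_one _
    exact_mod_cast h6
  obtain ⟨T1, hT1⟩ : ∃ T1 : ℕ, T1 = ⌈Λ * Real.log N⌉₊ := ⟨_, rfl⟩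
  have hT1a : Λ * Real.log N ≤ T1 := by rw [hT1]; exact Nat.le_ceil _
  have hT1b : (T1 : ℝ) ≤ 2 * Λ * Real.log N := by
    have h6 : (T1 : ℝ) < Λ * Real.log N + 1 := by
      rw [hT1]; exact Nat.ceil_lt_add_one (by positivity)
    have h7 := (le_max_right (T0 : ℝ) 1).trans h2
    linarith
  have hT0 : T0 ≤ T1 := by
    have h6 : (T0 : ℝ) ≤ T1 := ((le_max_left (T0 : ℝ) 1).trans h2).trans hT1a
    exact_mod_cast h6
  have hTT : T ≤ T1 := by exact_mod_cast hT.trans hT1a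
  have hm := hM Z N y T1 hy0 hyK hT0
  -- the size of the density
  have hly : θ / 2 * Real.log N ≤ Real.log y := by
    have h6 : (N : ℝ) ^ θ / 2 ≤ y := by linarith [le_max_right (y0 : ℝ) 3]
    have h7 : Real.log ((N : ℝ) ^ θ / 2) ≤ Real.log y := Real.log_le_log (by positivity) h6
    rw [Real.log_div (by positivity) (by norm_num), Real.log_rpow (by linarith)] at h7
    rw [div_le_iff₀ hθ0] at h3
    linarith
  have hly0 : 0 < Real.log y := lt_of_lt_of_le (by positivity) hly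
  have hTV : (T1 : ℝ) * V1 y ≤ C2 := by
    have h6 := hV y hy3
    have h7 : C1 / Real.log y ≤ C1 / (θ / 2 * Real.log N) :=
      div_le_div_of_nonneg_left hC1.le (by positivity) hly
    calc (T1 : ℝ) * V1 y ≤ (2 * Λ * Real.log N) * (C1 / (θ / 2 * Real.log N)) :=
          mul_le_mul hT1b (h6.trans h7) (Pool.Agent.Y862.SQ.V1_nonneg y) (by positivity)
      _ = C2 := by rw [hC2]; field_simp; ring
  have hTV0 : 0 ≤ (T1 : ℝ) * V1 y := mul_nonneg (Nat.cast_nonneg _) (Pool.Agent.Y862.SQ.V1_nonneg y)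
  have hsq : (T1 : ℝ) ^ (k + 1) * √(N : ℝ) ≤ N := by
    calc (T1 : ℝ) ^ (k + 1) * √(N : ℝ) ≤ √(N : ℝ) * √(N : ℝ) := by
          apply mul_le_mul_of_nonneg_right _ (Real.sqrt_nonneg _)
          exact (pow_le_pow_left₀ (Nat.cast_nonneg _) hT1b _).trans h4
      _ = N := Real.mul_self_sqrt (by linarith)
  have hch : ∑ n ∈ Ioc Z (Z + N), ((Nl y T1 n).choose (k + 1) : ℝ) ≤
      N * (2 * (C2 ^ (k + 1) / (k + 1).factorial) + 1) := by
    have h6 := (abs_le.1 hm).2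
    have h7 : ((T1 : ℝ) * V1 y) ^ (k + 1) / (k + 1).factorial ≤
        C2 ^ (k + 1) / (k + 1).factorial := by
      apply div_le_div_of_nonneg_right _ (by positivity)
      exact pow_le_pow_left₀ hTV0 hTV _
    have h8 : (N : ℝ) * (((T1 : ℝ) * V1 y) ^ (k + 1) / (k + 1).factorial) ≤
        N * (C2 ^ (k + 1) / (k + 1).factorial) := mul_le_mul_of_nonneg_left h7 (by positivity)
    linarith
  have hpt : ∀ n ∈ Ioc Z (Z + N), ((Nl y T n : ℕ) : ℝ) ^ (k + 1) ≤ (2 * (k + 1 : ℕ)) ^ (k + 1) +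
      2 ^ (k + 1) * (k + 1).factorial * ((Nl y T1 n).choose (k + 1) : ℝ) := by
    intro n _
    have h6 : ((Nl y T n : ℕ) : ℝ) ≤ (Nl y T1 n : ℕ) := by exact_mod_cast Nl_mono hTT
    exact (pow_le_pow_left₀ (Nat.cast_nonneg _) h6 _).trans (pow_le_choose' _ _)
  refine (sum_le_sum hpt).trans ?_
  rw [sum_add_distrib, sum_const, Nat.card_Ioc, ← mul_sum, nsmul_eq_mul]
  have h6 : Z + N - Z = N := by omega
  rw [h6]
  have h7 : (2 : ℝ) ^ (k + 1) * (k + 1).factorial * ∑ n ∈ Ioc Z (Z + N), ((Nl y T1 n).choose (k + 1) : ℝ) ≤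
      2 ^ (k + 1) * (k + 1).factorial * (N * (2 * (C2 ^ (k + 1) / (k + 1).factorial) + 1)) :=
    mul_le_mul_of_nonneg_left hch (by positivity)
  calc _ ≤ (N : ℝ) * (2 * (k + 1 : ℕ)) ^ (k + 1) +
      2 ^ (k + 1) * (k + 1).factorial * (N * (2 * (C2 ^ (k + 1) / (k + 1).factorial) + 1)) := by
        linarith
    _ = _ := by ring

theorem momS : MomS := fun k Λ δ hΛ hδ => mom k Λ δ hΛ hδ

end Pool.Agent.T6.H3.TE
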