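import Mathlib
import Pool.Agent.T6.H3.TE.Win
import Pool.Agent.T6.H3.TE.Fin

/-! Arithmetic progressions with a bounded number of terms. -/

set_option autoImplicit false

namespace Pool.Agent.T6.H3.TE

open Finset Filter Topology

/-- two primes give a solution of one of the equations; the equation is the same for all `t` -/
theorem pair' (r Q κ : ℤ) (B : Finset ℕ) (x : Fin 4 → ℤ) (hx : Rel B x) (g g' : Fin 4)
    (hg : g < g') : ∃ k ∈ B, ∃ q ∈ EQ κ, ∀ t : ℤ, (slo g * t + cen r Q κ g (x g)).toNat.Prime →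
    (slo g' * t + cen r Q κ g' (x g')).toNat.Prime → ∀ M : ℕ, (M : ℤ) = r + Q * k →
    slo g * t + cen r Q κ g (x g) ≤ 2 * M →
    (slo g * t + cen r Q κ g (x g)).toNat ∈ sol q M := by
  classical
  obtain ⟨R1, R2, R3, R4, R5, R6⟩ := hx
  have key : ∀ (a : (ℤ × ℤ × ℤ) × ℤ) (k : ℕ), k ∈ B → a ∈ EQ κ →
      (∀ t : ℤ, a.1.1 * (slo g * t + cen r Q κ g (x g)) +
        a.1.2.1 * (slo g' * t + cen r Q κ g' (x g')) = a.1.2.2 * (r + Q * k) + a.2) →
      ∃ k ∈ B, ∃ q ∈ EQ κ, ∀ t : ℤ, (slo g * t + cen r Q κ g (x g)).toNat.Prime →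
    (slo g' * t + cen r Q κ g' (x g')).toNat.Prime → ∀ M : ℕ, (M : ℤ) = r + Q * k →
    slo g * t + cen r Q κ g (x g) ≤ 2 * M →
    (slo g * t + cen r Q κ g (x g)).toNat ∈ sol q M := by
    intro a k hk ha he
    refine ⟨k, hk, a, ha, fun t h1 h2 M hM hle => ?_⟩
    have e1 := toNat_prime h1
    have e2 := toNat_prime h2
    unfold sol
    rw [mem_filter, mem_range]
    refine ⟨by omega, h1, _, h2, ?_⟩
    rw [e1, e2, hM]
    exact he t
  rcases pairs4 g g' hg with ⟨rfl, rfl⟩ | ⟨rfl, rfl⟩ | ⟨rfl, rfl⟩ | ⟨rfl, rfl⟩ | ⟨rfl, rfl⟩ |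
    ⟨rfl, rfl⟩
  · obtain ⟨k, hk, hr⟩ := R1
    refine key ((1, 1, 2), 0) k hk (by simp [EQ]) fun t => ?_
    simp [slo, cen]
    linear_combination Q * hr
  · obtain ⟨k, hk, hr⟩ := R2
    refine key ((2, -1, 1), -κ) k hk (by simp [EQ]) fun t => ?_
    simp [slo, cen]
    linear_combination Q * hr
  · obtain ⟨k, hk, hr⟩ := R3
    refine key ((2, 1, 3), -κ) k hk (by simp [EQ]) fun t => ?_
    simp [slo, cen]
    linear_combination Q * hr
  · obtain ⟨k, hk, hr⟩ := R4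
    refine key ((2, 1, 3), κ) k hk (by simp [EQ]) fun t => ?_
    simp [slo, cen]
    linear_combination Q * hr
  · obtain ⟨k, hk, hr⟩ := R5
    refine key ((2, -1, 1), κ) k hk (by simp [EQ]) fun t => ?_
    simp [slo, cen]
    linear_combination Q * hr
  · obtain ⟨k, hk, hr⟩ := R6
    refine key ((1, 1, 2), 0) k hk (by simp [EQ]) fun t => ?_
    simp [slo, cen]
    linear_combination Q * hr

open Classical in
/-- the bad members of a progression -/
noncomputable def BadP (κ : ℤ) (C N d h : ℕ) : Finset ℕ :=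
  (Icc 1 h).filter (fun j : ℕ => Odd (((N + j * d : ℕ) : ℤ) + κ) ∧
    ∀ q ∈ EQ κ, ((sol q (N + j * d)).card : ℝ) <
      ((N + j * d : ℕ) : ℝ) / Real.log ((N + j * d : ℕ) : ℝ) ^ C)

theorem cen_bdP (N d h Q r : ℕ) (κ : ℤ) (hκ : κ = 0 ∨ κ = 3) (hQ : 0 < Q) (hr : r < Q)
    (hh : 3 * Q + 3 ≤ h) (hd : 1 ≤ d) (hN : 1000 * (h * d) ≤ N) (x : ℤ)
    (hx : -((h / Q + 2 : ℕ) : ℤ) ≤ x ∧ x ≤ 3 * ((h / Q + 2 : ℕ) : ℤ))
    (g : Fin 4) : 50 * (N : ℤ) - N ≤ 50 * cen (N + d * (r - Q)) (d * Q) κ g x ∧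
      50 * cen (N + d * (r - Q)) (d * Q) κ g x ≤ 50 * N + N := by
  have h4 := Nat.div_add_mod h Q
  obtain ⟨b, hb⟩ : ∃ b : ℕ, b = h / Q := ⟨_, rfl⟩
  rw [← hb] at h4 hx
  obtain ⟨hx1, hx2⟩ := hx
  have hQz : (0 : ℤ) < Q := by exact_mod_cast hQ
  have hdz : (1 : ℤ) ≤ d := by exact_mod_cast hd
  have k4 : (Q : ℤ) * (b : ℤ) ≤ h := by
    have : Q * b ≤ h := by omega
    exact_mod_cast this
  have k9 : (r : ℤ) < Q := by exact_mod_cast hr
  have k10 : (0 : ℤ) ≤ r := Nat.cast_nonneg _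
  have k11 : 3 * (Q : ℤ) + 3 ≤ h := by exact_mod_cast hh
  have k12 : 1000 * ((h : ℤ) * d) ≤ N := by exact_mod_cast hN
  have e1 : |(Q : ℤ) * x| ≤ 5 * h := by
    rw [abs_le]
    push_cast at hx1 hx2
    have a1 := mul_le_mul_of_nonneg_left hx1 hQz.le
    have a2 := mul_le_mul_of_nonneg_left hx2 hQz.le
    constructor <;> nlinarith
  have e2 : |(r : ℤ) - Q + Q * x| ≤ 6 * h := by
    have := abs_le.1 e1
    rw [abs_le]
    constructor <;> linarith
  have e3 : |(d : ℤ) * ((r : ℤ) - Q + Q * x)| ≤ 6 * (h * d) := by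
    rw [abs_mul, abs_of_nonneg (by linarith : (0 : ℤ) ≤ d)]
    have := mul_le_mul_of_nonneg_left e2 (by linarith : (0 : ℤ) ≤ d)
    linarith
  have e4 : (h : ℤ) ≤ h * d := by nlinarith
  have k15 : -3 ≤ (![0, 0, κ, -κ] : Fin 4 → ℤ) g ∧ (![0, 0, κ, -κ] : Fin 4 → ℤ) g ≤ 3 := by
    rcases hκ with rfl | rfl <;> fin_cases g <;> simp
  have e5 : cen (N + d * (r - Q)) (d * Q) κ g x =
      N + (![0, 0, κ, -κ] : Fin 4 → ℤ) g + d * ((r : ℤ) - Q + Q * x) := by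
    unfold cen; ring
  rw [e5]
  have := abs_le.1 e3
  constructor <;> linarith [k15.1, k15.2]

theorem progB (K : ℕ) (hK : 1 ≤ K) (δ : ℝ) (hL : LamS 4 1 K δ) (κ : ℤ)
    (hκ : κ = 0 ∨ κ = 3) (ε : ℝ) (hε : 0 < ε) :
    ∃ H₀ : ℕ, ∀ h : ℕ, H₀ ≤ h → ∃ N₀ : ℕ, ∀ N : ℕ, N₀ ≤ N → ∀ d : ℕ, 1 ≤ d → 1000 * (h * d) ≤ N →
      ((BadP κ (4 * K + 2) N d h).card : ℝ) ≤ ε * h := by
  classical
  obtain ⟨s₀, c, hc, hlam⟩ := hL 2
  obtain ⟨N1, hN1⟩ := eventually_atTop.1 hlam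
  obtain ⟨κ₂, h₁, hκ₂, hconf⟩ := conf (ε / 2) (by positivity) K hK
  obtain ⟨Q, hQ⟩ : ∃ Q : ℕ, Q = (4 * K).factorial := ⟨_, rfl⟩
  have hQ0 : 0 < Q := by rw [hQ]; exact Nat.factorial_pos _
  have hQr : (0 : ℝ) < Q := by exact_mod_cast hQ0
  have hQ2 : (2 : ℤ) ∣ Q := by
    have : 2 ∣ Q := by rw [hQ]; exact Nat.dvd_factorial (by norm_num) (by omega)
    exact_mod_cast this
  refine ⟨3 * Q + 3 + Q * h₁, fun h hh => ?_⟩
  have ev1 : ∀ᶠ N : ℕ in atTop, 4 / c ≤ Real.log N :=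
    (Real.tendsto_log_atTop.comp tendsto_natCast_atTop_atTop).eventually_ge_atTop _
  obtain ⟨N2, hN2⟩ := eventually_atTop.1 ev1
  refine ⟨2 * N1 + N2 + 100 * (s₀ + 1) + 16, fun N hN d hd hNd => ?_⟩
  by_contra hbad
  push Not at hbad
  have h3 : 3 * Q + 3 ≤ h := by omega
  obtain ⟨X, hX⟩ : ∃ X : ℕ, X = 8 * N / 9 := ⟨_, rfl⟩
  have hX1 : 9 * X ≤ 8 * N := by rw [hX]; exact Nat.mul_div_le _ _
  have hX2 : 8 * N < 9 * X + 9 := by
    rw [hX]
    have := Nat.lt_mul_div_succ (8 * N) (show 0 < 9 by norm_num)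
    omega
  -- a residue class
  obtain ⟨r, hrQ, hrc⟩ := resid (BadP κ (4 * K + 2) N d h) Q hQ0 (ε * h) hbad.le
  obtain ⟨F, hF⟩ : ∃ F : Finset ℕ, F = (BadP κ (4 * K + 2) N d h).filter (fun M => M % Q = r) :=
    ⟨_, rfl⟩
  rw [← hF] at hrc
  have hh0 : 0 < h := by omega
  have hFne : F.Nonempty := by
    rw [← card_pos]
    have hh0r : (0 : ℝ) < h := by exact_mod_cast hh0
    have h4 : (0 : ℝ) < F.card := lt_of_lt_of_le (by positivity) hrc
    exact_mod_cast h4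
  have hFm : ∀ j ∈ F, j % Q = r ∧ 1 ≤ j ∧ j ≤ h ∧ Odd (((N + j * d : ℕ) : ℤ) + κ) ∧
      ∀ q ∈ EQ κ, ((sol q (N + j * d)).card : ℝ) <
        ((N + j * d : ℕ) : ℝ) / Real.log ((N + j * d : ℕ) : ℝ) ^ (4 * K + 2) := by
    intro j hj
    rw [hF, mem_filter] at hj
    have hj' := hj.1
    unfold BadP at hj'
    rw [mem_filter, mem_Icc] at hj'
    exact ⟨hj.2, hj'.1.1, hj'.1.2, hj'.2.1, hj'.2.2⟩
  obtain ⟨rc, hrcd⟩ : ∃ rc : ℤ, rc = N + d * (r - Q) := ⟨_, rfl⟩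
  have hMeq : ∀ j ∈ F, (((N + j * d : ℕ) : ℕ) : ℤ) = rc + (d * Q : ℤ) * ((j / Q + 1 : ℕ) : ℤ) := by
    intro j hj
    have h6 : (j : ℤ) = r + Q * ((j / Q : ℕ) : ℤ) := by
      have := Nat.mod_add_div j Q
      rw [(hFm j hj).1] at this
      exact_mod_cast this.symm
    rw [hrcd]
    obtain ⟨w, hw⟩ : ∃ w : ℕ, w = j / Q := ⟨_, rfl⟩
    rw [← hw] at h6 ⊢
    push_cast
    rw [h6]
    ring
  have hdQ2 : (2 : ℤ) ∣ (d * Q : ℤ) := hQ2.mul_left _
  have hrodd : Odd (rc + κ) := by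
    obtain ⟨j, hj⟩ := hFne
    have h5 := (hFm j hj).2.2.2.1
    rw [hMeq j hj] at h5
    obtain ⟨q', hq'⟩ := hdQ2
    obtain ⟨m', hm'⟩ := h5
    refine ⟨m' - q' * ((j / Q + 1 : ℕ) : ℤ), ?_⟩
    rw [hq'] at hm'
    linear_combination hm'
  obtain ⟨B, hB⟩ : ∃ B : Finset ℕ, B = F.image (fun j => j / Q + 1) := ⟨_, rfl⟩
  have hBc : B.card = F.card := by
    rw [hB]
    refine card_image_of_injOn ?_
    intro M hM M' hM' he
    have h4 := (hFm M (mem_coe.1 hM)).1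
    have h5 := (hFm M' (mem_coe.1 hM')).1
    have h6 := Nat.mod_add_div M Q
    have h7 := Nat.mod_add_div M' Q
    simp only at he
    have he' : M / Q = M' / Q := by omega
    rw [h4, he'] at h6
    rw [h5] at h7
    exact h6.symm.trans h7
  have hBsub : B ⊆ Ioc 0 (0 + (h / Q + 2)) := by
    intro k hk
    rw [hB, mem_image] at hk
    obtain ⟨j, hj, rfl⟩ := hk
    obtain ⟨-, -, h4, -⟩ := hFm j hj
    rw [mem_Ioc]
    have h6 : j / Q ≤ h / Q := Nat.div_le_div_right h4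
    exact ⟨Nat.succ_pos _, by omega⟩
  have hhq : ((h / Q + 2 : ℕ) : ℝ) ≤ 2 * (h / Q) := by
    have k3 : ((h / Q : ℕ) : ℝ) ≤ (h : ℝ) / Q := Nat.cast_div_le
    have k4 : (2 : ℝ) ≤ h / Q := by
      rw [le_div_iff₀ hQr]
      exact_mod_cast (by omega : 2 * Q ≤ h)
    push_cast
    linarith
  obtain ⟨A0, hA0, hA0c⟩ := hconf (h / Q + 2) 0 (by
      have k1 : h₁ ≤ h / Q := by
        rw [Nat.le_div_iff_mul_le hQ0, mul_comm]
        omega
      omega) B hBsub (by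
      rw [hBc]
      refine le_trans ?_ hrc
      calc ε / 2 * ((h / Q + 2 : ℕ) : ℝ) ≤ ε / 2 * (2 * (h / Q)) :=
            mul_le_mul_of_nonneg_left hhq (by positivity)
        _ = ε * h / Q := by ring)
  obtain ⟨A, hA⟩ : A0.Nonempty := by
    rw [← card_pos]
    have h4 : (0 : ℝ) < A0.card := lt_of_lt_of_le (by positivity) hA0c
    exact_mod_cast h4
  -- the centres
  have hcen : ∀ x : Fin 4 × Fin K, 50 * (N : ℤ) - N ≤ 50 * cen rc (d * Q) κ x.1 (A x) ∧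
      50 * cen rc (d * Q) κ x.1 (A x) ≤ 50 * N + N := by
    intro x
    have h4 := (hA0 A hA).1 x
    rw [mem_Icc] at h4
    rw [hrcd]
    refine cen_bdP N d h Q r κ hκ hQ0 hrQ h3 hd hNd _ ?_ _
    constructor
    · have := h4.1; push_cast at this ⊢; linarith
    · have := h4.2; push_cast at this ⊢; linarith
  have hAd : ∀ (g : Fin 4) (i : Fin K), Ad2 2 X (slo g, cen rc (d * Q) κ g (A (g, i))) := by
    intro g i
    obtain ⟨h4, h5⟩ := hcen (g, i)
    simp only at h4 h5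
    have hN100 : 100 ≤ N := by omega
    refine ⟨slo_ne g, slo_le g, ?_, cop rc (d * Q) κ hdQ2 hrodd g _, fun t ht1 ht2 => ?_⟩
    · have h6 : 0 ≤ cen rc (d * Q) κ g (A (g, i)) := by omega
      simp only
      rw [abs_of_nonneg h6]
      omega
    · simp only
      have k2 : (9 : ℝ) * X ≤ 8 * N := by exact_mod_cast hX1
      have k4 : 50 * (N : ℝ) - N ≤ 50 * ((cen rc (d * Q) κ g (A (g, i)) : ℤ) : ℝ) := by
        exact_mod_cast h4
      have k5 : (-2 : ℝ) ≤ ((slo g : ℤ) : ℝ) := by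
        have := (abs_le.1 (slo_le g)).1
        exact_mod_cast this
      have k6 : (0 : ℝ) ≤ t := le_trans (by positivity) ht1
      have k7 : (-2 : ℝ) * t ≤ ((slo g : ℤ) : ℝ) * t := mul_le_mul_of_nonneg_right k5 k6
      linarith
  obtain ⟨s, S, σ, hs, hS, hRc⟩ := hN1 X (by omega) (fun g i => (slo g, cen rc (d * Q) κ g (A (g, i))))
    (by
      rintro ⟨g, i⟩ ⟨g', i'⟩ he
      simp only [Prod.mk.injEq] at he
      have h5 := slo_inj he.1
      subst h5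
      have hne : ((d : ℤ) * Q) ≠ 0 := by
        have : (0 : ℤ) < d * Q := mul_pos (by exact_mod_cast hd) (by exact_mod_cast hQ0)
        exact this.ne'
      have h6 := cen_inj hne he.2
      by_contra hne'
      exact (hA0 A hA).2.2 g i i' (fun h => hne' (by rw [h])) h6)
    (fun g i => hAd g i)
    (by
      intro p hp hp4
      obtain ⟨t, ht⟩ := loc rc (d * Q) κ hκ hrodd p hp (by
        have : p ∣ Q := by rw [hQ]; exact Nat.dvd_factorial hp.pos hp4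
        exact (Int.natCast_dvd_natCast.2 this).mul_left _)
      exact ⟨t, fun g i => ht g _⟩)
  obtain ⟨g, g', hgg, hgS, hgS'⟩ : ∃ g g' : Fin 4, g < g' ∧ g ∈ S ∧ g' ∈ S := by
    obtain ⟨g, hg, g', hg', hne⟩ := one_lt_card.1 (by omega : 1 < S.card)
    rcases lt_or_gt_of_ne hne with h | h
    · exact ⟨g, g', h, hg, hg'⟩
    · exact ⟨g', g, h, hg', hg⟩
  obtain ⟨cc, hcc⟩ : ∃ cc : Fin 4 → Fin K, cc = fun k => if k = g then σ g else σ g' := ⟨_, rfl⟩
  have hcg : cc g = σ g := by rw [hcc]; simp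
  have hcg' : cc g' = σ g' := by rw [hcc]; simp [hgg.ne']
  have hrel := (hA0 A hA).2.1 cc
  obtain ⟨k, hk, q, hq, hpair⟩ := pair' rc (d * Q) κ B (fun g => A (g, cc g)) hrel g g' hgg
  rw [hB, mem_image] at hk
  obtain ⟨j, hj, rfl⟩ := hk
  obtain ⟨-, hj1, hjh, -, hjbad⟩ := hFm j hj
  obtain ⟨M, hM⟩ : ∃ M : ℕ, M = N + j * d := ⟨_, rfl⟩
  have hMN : N ≤ M := by rw [hM]; omega
  have hMN2 : M ≤ 2 * N := by
    rw [hM]
    have : j * d ≤ h * d := Nat.mul_le_mul_right _ hjh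
    omega
  simp only [hcg, hcg'] at hpair
  have hsolc : ((R2 (fun g i => (slo g, cen rc (d * Q) κ g (A (g, i)))) δ s S σ X).card : ℝ) ≤
      ((sol q M).card : ℝ) := by
    rw [Nat.cast_le]
    refine card_le_card_of_injOn (fun n : ℕ =>
      (slo g * ((n : ℤ) + s) + cen rc (d * Q) κ g (A (g, σ g))).toNat) ?_ ?_
    · intro n hn
      rw [mem_coe] at hn
      unfold R2 at hn
      rw [mem_filter] at hn
      obtain ⟨h4, h5, h6, -, -, h7⟩ := hn
      refine hpair ((n : ℤ) + s) (h7 g hgS) (h7 g' hgS') M (by rw [hM]; exact hMeq j hj) ?_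
      have k1 : 2 * (n : ℤ) ≤ X := by
        have : 2 * (n : ℝ) ≤ X := by linarith
        exact_mod_cast this
      have k2 := (hcen (g, σ g)).2
      simp only at k2
      have k3 := (abs_le.1 (slo_le g)).2
      have k4 : slo g * ((n : ℤ) + s) ≤ 2 * ((n : ℤ) + s) :=
        mul_le_mul_of_nonneg_right k3 (by positivity)
      have k5 : (s : ℤ) ≤ s₀ := by exact_mod_cast hs
      have k6 : 100 * ((s₀ : ℤ) + 1) ≤ N := by
        have : 100 * (s₀ + 1) ≤ N := by omega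
        exact_mod_cast this
      have k7 : (9 : ℤ) * X ≤ 8 * N := by exact_mod_cast hX1
      have k8 : (N : ℤ) ≤ M := by exact_mod_cast hMN
      linarith
    · intro n hn n' hn' he
      rw [mem_coe] at hn hn'
      unfold R2 at hn hn'
      rw [mem_filter] at hn hn'
      have e1 := toNat_prime (hn.2.2.2.2.2 g hgS)
      have e2 := toNat_prime (hn'.2.2.2.2.2 g hgS)
      simp only at he e1 e2
      have e3 : slo g * ((n : ℤ) + s) + cen rc (d * Q) κ g (A (g, σ g)) =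
          slo g * ((n' : ℤ) + s) + cen rc (d * Q) κ g (A (g, σ g)) := by
        rw [← e1, ← e2, he]
      have e4 : slo g * (n : ℤ) = slo g * (n' : ℤ) := by linarith
      exact_mod_cast mul_left_cancel₀ (slo_ne g) e4
  have hbd := hjbad q hq
  rw [← hM] at hbd
  -- comparison
  have hNr : (16 : ℝ) ≤ N := by exact_mod_cast (by omega : 16 ≤ N)
  have hMr : (N : ℝ) ≤ M := by exact_mod_cast hMN
  have hMr2 : (M : ℝ) ≤ 2 * N := by exact_mod_cast hMN2
  have hXr : (N : ℝ) ≤ 2 * X := by exact_mod_cast (by omega : N ≤ 2 * X)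
  have hXM : (X : ℝ) ≤ M := by exact_mod_cast (by omega : X ≤ M)
  have hlX : 0 < Real.log X := Real.log_pos (by linarith)
  have hlXM : Real.log X ≤ Real.log M := Real.log_le_log (by linarith) hXM
  have hlM : 4 / c ≤ Real.log M :=
    (hN2 N (by omega)).trans (Real.log_le_log (by linarith) hMr)
  have hlM0 : 0 < Real.log M := lt_of_lt_of_le hlX hlXM
  have h6 : (M : ℝ) / Real.log M ^ (4 * K + 2) ≤ c * (X / (Real.log X) ^ (4 * K + 1)) := by
    rw [div_le_iff₀ hc] at hlM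
    have h7 : (X : ℝ) / Real.log M ^ (4 * K + 1) ≤ X / Real.log X ^ (4 * K + 1) :=
      div_le_div_of_nonneg_left (by positivity) (by positivity) (pow_le_pow_left₀ hlX.le hlXM _)
    calc (M : ℝ) / Real.log M ^ (4 * K + 2) ≤ (4 * X) / Real.log M ^ (4 * K + 2) := by
          apply div_le_div_of_nonneg_right (by linarith) (by positivity)
      _ ≤ (X * (Real.log M * c)) / Real.log M ^ (4 * K + 2) := by
          apply div_le_div_of_nonneg_right _ (by positivity)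
          have := mul_le_mul_of_nonneg_left hlM (Nat.cast_nonneg X : (0 : ℝ) ≤ X)
          linarith
      _ = c * (X / Real.log M ^ (4 * K + 1)) := by
          rw [pow_succ _ (4 * K + 1)]
          field_simp
      _ ≤ c * (X / (Real.log X) ^ (4 * K + 1)) := mul_le_mul_of_nonneg_left h7 hc.le
  have := h6.trans (hRc.trans hsolc)
  linarith

open Classical in
/-- the members of a progression with few solutions -/
noncomputable def NGP (C N d h : ℕ) : Finset ℕ :=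
  (Icc 1 h).filter (fun j : ℕ => ∀ q ∈ EQ (kap (N + j * d)), ((sol q (N + j * d)).card : ℝ) <
      ((N + j * d : ℕ) : ℝ) / Real.log ((N + j * d : ℕ) : ℝ) ^ C)

theorem NGP_sub (C N d h : ℕ) : NGP C N d h ⊆ BadP 0 C N d h ∪ BadP 3 C N d h := by
  classical
  intro j hj
  unfold NGP at hj
  rw [mem_filter] at hj
  rw [mem_union]
  obtain ⟨M, hM⟩ : ∃ M : ℕ, M = N + j * d := ⟨_, rfl⟩
  unfold BadP
  rw [mem_filter, mem_filter]
  rw [← hM] at hj ⊢
  unfold kap at hj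
  by_cases ho : Odd M
  · left
    rw [if_pos ho] at hj
    refine ⟨hj.1, ?_, hj.2⟩
    rw [add_zero]
    exact_mod_cast ho
  · right
    rw [if_neg ho] at hj
    refine ⟨hj.1, ?_, hj.2⟩
    rw [Nat.not_odd_iff_even] at ho
    obtain ⟨m, hm⟩ := ho
    exact ⟨m + 1, by rw [hm]; push_cast; ring⟩

theorem prog_fin (K : ℕ) (hK : 1 ≤ K) (δ : ℝ) (hL : LamS 4 1 K δ) (ε : ℝ) (hε : 0 < ε) :
    ∃ h₁ N₀ : ℕ, 1 ≤ h₁ ∧ ∀ N : ℕ, N₀ ≤ N → ∀ d : ℕ, 1 ≤ d → h₁ * d ≤ N → ∀ h : ℕ, h₁ ≤ h →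
      ((NGP (4 * K + 2) N d h).card : ℝ) ≤ ε * h := by
  obtain ⟨H₀, h0⟩ := progB K hK δ hL 0 (Or.inl rfl) (ε / 4) (by positivity)
  obtain ⟨H₃, h3⟩ := progB K hK δ hL 3 (Or.inr rfl) (ε / 4) (by positivity)
  obtain ⟨h₂, hh₂⟩ : ∃ h₂ : ℕ, h₂ = H₀ + H₃ + 1 := ⟨_, rfl⟩
  obtain ⟨N1, hN1⟩ := h0 h₂ (by omega)
  obtain ⟨N2, hN2⟩ := h3 h₂ (by omega)
  refine ⟨1000 * h₂, N1 + N2, by omega, fun N hN d hd hNd h hh => ?_⟩
  have hcov : NGP (4 * K + 2) N d h ⊆ (range (h / h₂ + 1)).biUnion (fun i =>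
      (NGP (4 * K + 2) (N + i * h₂ * d) d h₂).image (fun j => j + i * h₂)) := by
    intro j hj
    unfold NGP at hj
    rw [mem_filter, mem_Icc] at hj
    obtain ⟨⟨h4, h5⟩, h6⟩ := hj
    obtain ⟨i, hi⟩ : ∃ i : ℕ, i = (j - 1) / h₂ := ⟨_, rfl⟩
    have k1 := Nat.div_add_mod (j - 1) h₂
    have k2 := Nat.mod_lt (j - 1) (show 0 < h₂ by omega)
    rw [← hi, mul_comm] at k1
    rw [mem_biUnion]
    refine ⟨i, ?_, ?_⟩
    · rw [mem_range, hi]
      have : (j - 1) / h₂ ≤ h / h₂ := Nat.div_le_div_right (by omega)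
      omega
    · rw [mem_image]
      refine ⟨j - i * h₂, ?_, by omega⟩
      have k3 : N + i * h₂ * d + (j - i * h₂) * d = N + j * d := by
        rw [add_assoc, ← add_mul]
        congr 2
        omega
      unfold NGP
      rw [mem_filter, mem_Icc, k3]
      exact ⟨⟨by omega, by omega⟩, h6⟩
  have hone : ∀ i ∈ range (h / h₂ + 1), (((NGP (4 * K + 2) (N + i * h₂ * d) d h₂).image
      (fun j => j + i * h₂)).card : ℝ) ≤ ε / 2 * h₂ := by
    intro i _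
    have a1 : 1000 * (h₂ * d) ≤ N + i * h₂ * d := by
      have : 1000 * h₂ * d = 1000 * (h₂ * d) := by ring
      omega
    have b0 := hN1 (N + i * h₂ * d) (by omega) d hd a1
    have b3 := hN2 (N + i * h₂ * d) (by omega) d hd a1
    have c1 : ((((NGP (4 * K + 2) (N + i * h₂ * d) d h₂).image (fun j => j + i * h₂)).card : ℕ) : ℝ) ≤
        (BadP 0 (4 * K + 2) (N + i * h₂ * d) d h₂).card +
          (BadP 3 (4 * K + 2) (N + i * h₂ * d) d h₂).card := by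
      exact_mod_cast card_image_le.trans ((card_le_card (NGP_sub _ _ _ _)).trans (card_union_le _ _))
    linarith
  have e1 : ((NGP (4 * K + 2) N d h).card : ℝ) ≤ ∑ i ∈ range (h / h₂ + 1),
      (((NGP (4 * K + 2) (N + i * h₂ * d) d h₂).image (fun j => j + i * h₂)).card : ℝ) := by
    exact_mod_cast (card_le_card hcov).trans card_biUnion_le
  refine e1.trans ((sum_le_sum hone).trans ?_)
  rw [sum_const, card_range, nsmul_eq_mul]
  have e2 : ((h / h₂ + 1 : ℕ) : ℝ) * h₂ ≤ h + h₂ := by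
    have : (h / h₂ + 1) * h₂ ≤ h + h₂ := by
      rw [add_mul, one_mul]
      exact Nat.add_le_add_right (Nat.div_mul_le_self _ _) _
    exact_mod_cast this
  have e3 : (h₂ : ℝ) ≤ h := by exact_mod_cast (by omega : h₂ ≤ h)
  calc ((h / h₂ + 1 : ℕ) : ℝ) * (ε / 2 * h₂) = ε / 2 * (((h / h₂ + 1 : ℕ) : ℝ) * h₂) := by ring
    _ ≤ ε / 2 * (2 * h) := mul_le_mul_of_nonneg_left (by linarith) (by positivity)
    _ = ε * h := by ring

end Pool.Agent.T6.H3.TE
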